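import Mathlib

set_option autoImplicit false

/-! Comparison of the limit laws of an almost periodic function with respect to two sequences of probability measures. -/

namespace Pool.Agent.R461.GC

open MeasureTheory Filter Topology

/-- the character of frequency `θ` -/
noncomputable def ch (θ : ℝ) : ℝ → ℂ := fun x => Complex.exp (((θ * x : ℝ) : ℂ) * Complex.I)

lemma norm_ch (θ x : ℝ) : ‖ch θ x‖ = 1 := Complex.norm_exp_ofReal_mul_I _

lemma ch_zero : ch 0 = 1 := by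
  funext x
  simp [ch]

lemma ch_mul (θ θ' : ℝ) : ch θ * ch θ' = ch (θ + θ') := by
  funext x
  simp only [ch, Pi.mul_apply]
  rw [← Complex.exp_add]
  congr 1
  push_cast
  ring

lemma ch_cont (θ : ℝ) : Continuous (ch θ) := by
  unfold ch
  fun_prop

/-- the trigonometric polynomials with frequencies in `Λ` -/
def TrigS (Λ : AddSubgroup ℝ) : Submodule ℂ (ℝ → ℂ) := Submodule.span ℂ (ch '' (Λ : Set ℝ))

variable {Λ : AddSubgroup ℝ}

lemma ch_mem {θ : ℝ} (h : θ ∈ Λ) : ch θ ∈ TrigS Λ := Submodule.subset_span ⟨θ, h, rfl⟩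

lemma one_mem : (1 : ℝ → ℂ) ∈ TrigS Λ := by
  rw [← ch_zero]
  exact ch_mem Λ.zero_mem

lemma TrigS_mul {a b : ℝ → ℂ} (ha : a ∈ TrigS Λ) (hb : b ∈ TrigS Λ) : a * b ∈ TrigS Λ := by
  have h : a * b ∈ TrigS Λ * TrigS Λ := Submodule.mul_mem_mul ha hb
  unfold TrigS at h
  rw [Submodule.span_mul_span] at h
  refine Submodule.span_mono ?_ h
  rintro _ ⟨x, ⟨θ, hθ, rfl⟩, y, ⟨θ', hθ', rfl⟩, rfl⟩
  exact ⟨θ + θ', Λ.add_mem hθ hθ', (ch_mul θ θ').symm⟩

lemma TrigS_pow {a : ℝ → ℂ} (ha : a ∈ TrigS Λ) (k : ℕ) : a ^ k ∈ TrigS Λ := by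
  induction k with
  | zero => rw [pow_zero]; exact one_mem
  | succ k ih => rw [pow_succ]; exact TrigS_mul ih ha

lemma TrigS_cont {a : ℝ → ℂ} (ha : a ∈ TrigS Λ) : Continuous a ∧ ∃ B : ℝ, 0 ≤ B ∧ ∀ x, ‖a x‖ ≤ B := by
  unfold TrigS at ha
  induction ha using Submodule.span_induction with
  | mem x hx =>
    obtain ⟨θ, _, rfl⟩ := hx
    exact ⟨ch_cont θ, 1, zero_le_one, fun x => (norm_ch θ x).le⟩
  | zero => exact ⟨continuous_const, 0, le_rfl, fun x => by simp⟩
  | add x y _ _ hx hy =>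
    obtain ⟨h1, B1, h2, h3⟩ := hx
    obtain ⟨k1, B2, k2, k3⟩ := hy
    exact ⟨h1.add k1, B1 + B2, by linarith, fun z => (norm_add_le _ _).trans (add_le_add (h3 z) (k3 z))⟩
  | smul c x _ hx =>
    obtain ⟨h1, B1, h2, h3⟩ := hx
    refine ⟨h1.const_smul c, ‖c‖ * B1, by positivity, fun z => ?_⟩
    rw [Pi.smul_apply, norm_smul]
    exact mul_le_mul_of_nonneg_left (h3 z) (norm_nonneg _)

lemma TrigS_int {a : ℝ → ℂ} (ha : a ∈ TrigS Λ) (P : Measure ℝ) [IsProbabilityMeasure P] : Integrable a P := by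
  obtain ⟨h1, B, _, h3⟩ := TrigS_cont ha
  exact Integrable.of_bound h1.aestronglyMeasurable B (Eventually.of_forall h3)

lemma TrigS_lim {P Q : ℕ → Measure ℝ} [∀ k, IsProbabilityMeasure (P k)] [∀ k, IsProbabilityMeasure (Q k)]
    (hP : ∀ θ ∈ Λ, θ ≠ 0 → Tendsto (fun k => ∫ x, ch θ x ∂(P k)) atTop (𝓝 0))
    (hQ : ∀ θ ∈ Λ, θ ≠ 0 → Tendsto (fun k => ∫ x, ch θ x ∂(Q k)) atTop (𝓝 0)) {a : ℝ → ℂ} (ha : a ∈ TrigS Λ) :
    Tendsto (fun k => ∫ x, a x ∂(P k) - ∫ x, a x ∂(Q k)) atTop (𝓝 0) := by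
  have ha' := ha
  unfold TrigS at ha'
  induction ha' using Submodule.span_induction with
  | mem x hx =>
    obtain ⟨θ, hθ, rfl⟩ := hx
    by_cases h0 : θ = 0
    · rw [h0, ch_zero]
      simp
    · simpa using (hP θ hθ h0).sub (hQ θ hθ h0)
  | zero => simp
  | add x y hx hy ihx ihy =>
    have h1 := (ihx hx).add (ihy hy)
    rw [add_zero] at h1
    refine h1.congr fun k => ?_
    simp only [Pi.add_apply]
    rw [integral_add (TrigS_int hx _) (TrigS_int hy _), integral_add (TrigS_int hx _) (TrigS_int hy _)]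
    ring
  | smul c x hx ihx =>
    have h1 := (ihx hx).const_mul c
    rw [mul_zero] at h1
    refine h1.congr fun k => ?_
    simp only [Pi.smul_apply, smul_eq_mul]
    rw [integral_const_mul, integral_const_mul]
    ring

/-- polynomials of a real trigonometric polynomial -/
lemma TrigS_poly {u : ℝ → ℝ} (hu : (fun x => ((u x : ℝ) : ℂ)) ∈ TrigS Λ) (p : Polynomial ℝ) :
    (fun x => ((p.eval (u x) : ℝ) : ℂ)) ∈ TrigS Λ := by
  have h1 : (fun x => ((p.eval (u x) : ℝ) : ℂ)) = ∑ i ∈ Finset.range (p.natDegree + 1), ((p.coeff i : ℝ) : ℂ) • (fun x => ((u x : ℝ) : ℂ)) ^ i := by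
    funext x
    rw [Polynomial.eval_eq_sum_range, Finset.sum_apply]
    push_cast
    rfl
  rw [h1]
  exact Submodule.sum_mem _ fun i _ => Submodule.smul_mem _ _ (TrigS_pow hu i)

/-- continuous functions of a real trigonometric polynomial -/
lemma TrigS_fun {P Q : ℕ → Measure ℝ} [∀ k, IsProbabilityMeasure (P k)] [∀ k, IsProbabilityMeasure (Q k)]
    (hP : ∀ θ ∈ Λ, θ ≠ 0 → Tendsto (fun k => ∫ x, ch θ x ∂(P k)) atTop (𝓝 0))
    (hQ : ∀ θ ∈ Λ, θ ≠ 0 → Tendsto (fun k => ∫ x, ch θ x ∂(Q k)) atTop (𝓝 0)) {u : ℝ → ℝ}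
    (hu : (fun x => ((u x : ℝ) : ℂ)) ∈ TrigS Λ) {f : ℝ → ℝ} (hf : Continuous f) {η : ℝ} (hη : 0 < η) :
    ∃ k₀, ∀ k, k₀ ≤ k → |∫ x, f (u x) ∂(P k) - ∫ x, f (u x) ∂(Q k)| ≤ η := by
  obtain ⟨huc, B, hB0, hB⟩ := TrigS_cont hu
  have huc' : Continuous u := by
    have := Complex.continuous_re.comp huc
    exact this
  have hB' : ∀ x, |u x| ≤ B := fun x => by
    have := hB x
    rwa [Complex.norm_real, Real.norm_eq_abs] at this
  obtain ⟨p, hp⟩ := exists_polynomial_near_of_continuousOn (-B) B f hf.continuousOn (η / 4) (by linarith)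
  have hclose : ∀ (R : Measure ℝ) [IsProbabilityMeasure R], |∫ x, f (u x) ∂(R) - ∫ x, p.eval (u x) ∂(R)| ≤ η / 4 := by
    intro R _
    have hfi : Integrable (fun x => f (u x)) R := by
      obtain ⟨D, hD⟩ := (isCompact_Icc (a := -B) (b := B)).exists_bound_of_continuousOn hf.continuousOn
      refine Integrable.of_bound (hf.comp huc').aestronglyMeasurable D (Eventually.of_forall fun x => ?_)
      exact hD _ (abs_le.1 (hB' x))
    have hpi : Integrable (fun x => p.eval (u x)) R := by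
      obtain ⟨D, hD⟩ := (isCompact_Icc (a := -B) (b := B)).exists_bound_of_continuousOn p.continuous.continuousOn
      refine Integrable.of_bound (p.continuous.comp huc').aestronglyMeasurable D (Eventually.of_forall fun x => ?_)
      exact hD _ (abs_le.1 (hB' x))
    rw [← integral_sub hfi hpi]
    have h1 := norm_integral_le_of_norm_le_const (μ := R) (f := fun x => f (u x) - p.eval (u x)) (C := η / 4)
      (Eventually.of_forall fun x => by
        rw [Real.norm_eq_abs, abs_sub_comm]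
        exact (hp _ (abs_le.1 (hB' x))).le)
    rw [Real.norm_eq_abs] at h1
    simpa using h1
  have hlim := TrigS_lim hP hQ (TrigS_poly hu p)
  have h2 := (Metric.tendsto_atTop.1 hlim) (η / 4) (by linarith)
  obtain ⟨k₀, hk₀⟩ := h2
  refine ⟨k₀, fun k hk => ?_⟩
  have h3 := hk₀ k hk
  rw [dist_zero_right, integral_complex_ofReal, integral_complex_ofReal, ← Complex.ofReal_sub, Complex.norm_real, Real.norm_eq_abs] at h3
  have h4 := hclose (P k)
  have h5 := hclose (Q k)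
  have e1 := abs_lt.1 h3
  have e2 := abs_le.1 h4
  have e3 := abs_le.1 h5
  rw [abs_le]
  constructor <;> linarith [e1.1, e1.2, e2.1, e2.2, e3.1, e3.2]

/-- the cut off function -/
noncomputable def cut (K y : ℝ) : ℝ := max 0 (min 1 (K + 1 - |y|))

lemma cut_cont (K : ℝ) : Continuous (cut K) := by
  unfold cut
  fun_prop

lemma cut_one {K y : ℝ} (h : |y| ≤ K) : cut K y = 1 := by
  unfold cut
  rw [min_eq_left (by linarith), max_eq_right zero_le_one]

lemma cut_zero {K y : ℝ} (h : K + 1 ≤ |y|) : cut K y = 0 := by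
  unfold cut
  apply max_eq_left
  exact (min_le_right _ _).trans (by linarith)

lemma cut_mem (K y : ℝ) : 0 ≤ cut K y ∧ cut K y ≤ 1 := by
  unfold cut
  exact ⟨le_max_left _ _, max_le zero_le_one (min_le_left _ _)⟩

/-- comparison of the limit laws -/
theorem compare {P Q : ℕ → Measure ℝ} [∀ k, IsProbabilityMeasure (P k)] [∀ k, IsProbabilityMeasure (Q k)]
    (hP : ∀ θ ∈ Λ, θ ≠ 0 → Tendsto (fun k => ∫ x, ch θ x ∂(P k)) atTop (𝓝 0))
    (hQ : ∀ θ ∈ Λ, θ ≠ 0 → Tendsto (fun k => ∫ x, ch θ x ∂(Q k)) atTop (𝓝 0))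
    {E : ℝ → ℝ} (hE : Measurable E) (hPb : ∀ k, ∃ B, ∀ᵐ x ∂(P k), |E x| ≤ B) (hQb : ∀ k, ∃ B, ∀ᵐ x ∂(Q k), |E x| ≤ B)
    {u : ℕ → ℝ → ℝ} (hu : ∀ M, (fun x => ((u M x : ℝ) : ℂ)) ∈ TrigS Λ)
    (hPu : ∀ η : ℝ, 0 < η → ∃ M₀ : ℕ, ∀ M, M₀ ≤ M → ∃ k₀ : ℕ, ∀ k, k₀ ≤ k → ∫ x, (E x - u M x) ^ 2 ∂(P k) ≤ η)
    (hQu : ∀ η : ℝ, 0 < η → ∃ M₀ : ℕ, ∀ M, M₀ ≤ M → ∃ k₀ : ℕ, ∀ k, k₀ ≤ k → ∫ x, (E x - u M x) ^ 2 ∂(Q k) ≤ η)
    {f : ℝ → ℝ} (hf : Continuous f) (hC : ∃ C : ℝ, ∀ x, |f x| ≤ C * (1 + x ^ 2)) {η : ℝ} (hη : 0 < η) :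
    ∃ k₀, ∀ k, k₀ ≤ k → |∫ x, f (E x) ∂(P k) - ∫ x, f (E x) ∂(Q k)| ≤ η := by
  obtain ⟨C₀, hC₀⟩ := hC
  obtain ⟨C, hCd⟩ : ∃ C, C = |C₀| + 1 := ⟨_, rfl⟩
  have hCpos : 0 < C := by rw [hCd]; positivity
  have hC : ∀ x, |f x| ≤ C * (1 + x ^ 2) := fun x => (hC₀ x).trans (mul_le_mul_of_nonneg_right (by
    rw [hCd]; linarith [le_abs_self C₀]) (by positivity))
  -- the first approximation
  obtain ⟨η₁, hη₁⟩ : ∃ η₁, η₁ = η / (64 * C) := ⟨_, rfl⟩
  have hη₁0 : 0 < η₁ := by rw [hη₁]; positivity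
  obtain ⟨Ma, hMa⟩ := hPu η₁ hη₁0
  obtain ⟨Mb, hMb⟩ := hQu η₁ hη₁0
  obtain ⟨M₁, hM₁⟩ : ∃ M₁, M₁ = max Ma Mb := ⟨_, rfl⟩
  obtain ⟨k1, hk1⟩ := hMa M₁ (by rw [hM₁]; exact le_max_left _ _)
  obtain ⟨k2, hk2⟩ := hMb M₁ (by rw [hM₁]; exact le_max_right _ _)
  have hucont : ∀ M, Continuous (u M) := fun M => by
    have := Complex.continuous_re.comp (TrigS_cont (hu M)).1
    exact this
  have hub : ∀ M, ∃ B : ℝ, 0 ≤ B ∧ ∀ x, |u M x| ≤ B := fun M => by
    obtain ⟨_, B, hB0, hB⟩ := TrigS_cont (hu M)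
    refine ⟨B, hB0, fun x => ?_⟩
    have := hB x
    rwa [Complex.norm_real, Real.norm_eq_abs] at this
  obtain ⟨B, hB0, hB⟩ := hub M₁
  obtain ⟨K, hK⟩ : ∃ K, K = 2 * B + 1 := ⟨_, rfl⟩
  -- the cut function
  obtain ⟨F, hF⟩ : ∃ F : ℝ → ℝ, F = fun y => f y * cut K y := ⟨_, rfl⟩
  have hFc : Continuous F := by rw [hF]; exact hf.mul (cut_cont K)
  have hFsupp : HasCompactSupport F := by
    apply HasCompactSupport.intro (isCompact_Icc (a := -(K + 1)) (b := K + 1))
    intro y hy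
    rw [hF]
    simp only
    rw [cut_zero, mul_zero]
    by_contra hcon
    push Not at hcon
    exact hy (abs_le.1 hcon.le)
  obtain ⟨D₀, hD₀⟩ := hFsupp.exists_bound_of_continuous hFc
  obtain ⟨D, hD⟩ : ∃ D, D = |D₀| + 1 := ⟨_, rfl⟩
  have hDpos : 0 < D := by rw [hD]; positivity
  have hFD : ∀ y, |F y| ≤ D := fun y => by
    have := hD₀ y
    rw [Real.norm_eq_abs] at this
    rw [hD]
    linarith [le_abs_self D₀]
  have huc := hFsupp.uniformContinuous_of_continuous hFc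
  rw [Metric.uniformContinuous_iff] at huc
  obtain ⟨δ, hδ0, hδ⟩ := huc (η / 16) (by linarith)
  have hFF : ∀ y y' : ℝ, |F y - F y'| ≤ η / 16 + 2 * D / δ ^ 2 * (y - y') ^ 2 := by
    intro y y'
    by_cases h : dist y y' < δ
    · have h1 := hδ h
      rw [Real.dist_eq] at h1
      have : 0 ≤ 2 * D / δ ^ 2 * (y - y') ^ 2 := by positivity
      linarith
    · push Not at h
      rw [Real.dist_eq] at h
      have h1 : |F y - F y'| ≤ 2 * D := by
        have := abs_sub (F y) (F y')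
        linarith [hFD y, hFD y']
      have h2 : δ ^ 2 ≤ (y - y') ^ 2 := by
        rw [← sq_abs (y - y')]
        exact pow_le_pow_left₀ hδ0.le h 2
      have h3 : 2 * D ≤ 2 * D / δ ^ 2 * (y - y') ^ 2 := by
        rw [div_mul_eq_mul_div, le_div_iff₀ (by positivity)]
        exact mul_le_mul_of_nonneg_left h2 (by positivity)
      linarith
  obtain ⟨η₃, hη₃⟩ : ∃ η₃, η₃ = η * δ ^ 2 / (32 * D) := ⟨_, rfl⟩
  have hη₃0 : 0 < η₃ := by rw [hη₃]; positivity
  obtain ⟨Mc, hMc⟩ := hPu η₃ hη₃0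
  obtain ⟨Md, hMd⟩ := hQu η₃ hη₃0
  obtain ⟨M₂, hM₂⟩ : ∃ M₂, M₂ = max Mc Md := ⟨_, rfl⟩
  obtain ⟨k3, hk3⟩ := hMc M₂ (by rw [hM₂]; exact le_max_left _ _)
  obtain ⟨k4, hk4⟩ := hMd M₂ (by rw [hM₂]; exact le_max_right _ _)
  obtain ⟨k5, hk5⟩ := TrigS_fun hP hQ (hu M₂) hFc (show 0 < η / 4 by linarith)
  -- one measure
  have hone : ∀ (R : Measure ℝ) [IsProbabilityMeasure R], (∃ B', ∀ᵐ x ∂(R), |E x| ≤ B') → ∫ x, (E x - u M₁ x) ^ 2 ∂(R) ≤ η₁ →
      ∫ x, (E x - u M₂ x) ^ 2 ∂(R) ≤ η₃ → |∫ x, f (E x) ∂(R) - ∫ x, F (u M₂ x) ∂(R)| ≤ η / 4 := by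
    intro R _ hRb h1 h2
    obtain ⟨B', hB'⟩ := hRb
    have hfE : Integrable (fun x => f (E x)) R := by
      refine Integrable.of_bound (hf.measurable.comp hE).aestronglyMeasurable (C * (1 + B' ^ 2)) ?_
      filter_upwards [hB'] with x hx
      rw [Real.norm_eq_abs]
      refine (hC _).trans (mul_le_mul_of_nonneg_left ?_ hCpos.le)
      have : (E x) ^ 2 ≤ B' ^ 2 := by
        rw [← sq_abs]
        exact pow_le_pow_left₀ (abs_nonneg _) hx 2
      linarith
    have hFE : Integrable (fun x => F (E x)) R :=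
      Integrable.of_bound (hFc.measurable.comp hE).aestronglyMeasurable D (Eventually.of_forall fun x => by
        rw [Real.norm_eq_abs]; exact hFD _)
    have hFu : Integrable (fun x => F (u M₂ x)) R :=
      Integrable.of_bound (hFc.comp (hucont M₂)).aestronglyMeasurable D (Eventually.of_forall fun x => by
        rw [Real.norm_eq_abs]; exact hFD _)
    have hsq : ∀ M, Integrable (fun x => (E x - u M x) ^ 2) R := by
      intro M
      obtain ⟨BM, hBM0, hBM⟩ := hub M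
      refine Integrable.of_bound ((hE.sub (hucont M).measurable).pow_const 2).aestronglyMeasurable ((B' + BM) ^ 2) ?_
      filter_upwards [hB'] with x hx
      rw [Real.norm_eq_abs, abs_of_nonneg (sq_nonneg _), ← sq_abs]
      apply pow_le_pow_left₀ (abs_nonneg _)
      exact (abs_sub _ _).trans (add_le_add hx (hBM x))
    -- the cut
    have a1 : |∫ x, f (E x) ∂(R) - ∫ x, F (E x) ∂(R)| ≤ η / 8 := by
      rw [← integral_sub hfE hFE]
      have b1 : ∀ x, ‖f (E x) - F (E x)‖ ≤ 8 * C * (E x - u M₁ x) ^ 2 := by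
        intro x
        rw [Real.norm_eq_abs, hF]
        simp only
        by_cases hx : |E x| ≤ K
        · rw [cut_one hx, mul_one, sub_self, abs_zero]
          positivity
        · push Not at hx
          have c1 := cut_mem K (E x)
          have c2 : |f (E x) - f (E x) * cut K (E x)| ≤ |f (E x)| := by
            have : f (E x) - f (E x) * cut K (E x) = f (E x) * (1 - cut K (E x)) := by ring
            rw [this, abs_mul]
            apply mul_le_of_le_one_right (abs_nonneg _)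
            rw [abs_le]
            constructor <;> linarith [c1.1, c1.2]
          refine c2.trans ((hC _).trans ?_)
          have c3 := hB x
          have c4 : |E x| / 2 ≤ |E x - u M₁ x| := by
            have := abs_sub_abs_le_abs_sub (E x) (u M₁ x)
            rw [hK] at hx
            linarith
          have c5 : (|E x| / 2) ^ 2 ≤ (E x - u M₁ x) ^ 2 := by
            rw [← sq_abs (E x - u M₁ x)]
            exact pow_le_pow_left₀ (by positivity) c4 2
          have c6 : 1 ≤ |E x| := by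
            rw [hK] at hx
            linarith
          have c7 : 1 ≤ (E x) ^ 2 := by
            rw [← sq_abs]
            nlinarith
          have c8 : (|E x| / 2) ^ 2 = (E x) ^ 2 / 4 := by
            rw [div_pow, sq_abs]
            norm_num
          rw [c8] at c5
          nlinarith
      have b2 := norm_integral_le_of_norm_le ((hsq M₁).const_mul (8 * C)) (Eventually.of_forall b1)
      rw [Real.norm_eq_abs, integral_const_mul] at b2
      refine b2.trans ?_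
      calc 8 * C * ∫ x, (E x - u M₁ x) ^ 2 ∂(R) ≤ 8 * C * η₁ := mul_le_mul_of_nonneg_left h1 (by positivity)
        _ = η / 8 := by rw [hη₁]; field_simp; ring
    have a2 : |∫ x, F (E x) ∂(R) - ∫ x, F (u M₂ x) ∂(R)| ≤ η / 8 := by
      rw [← integral_sub hFE hFu]
      have b2 := norm_integral_le_of_norm_le (μ := R) (f := fun x => F (E x) - F (u M₂ x))
        (((integrable_const (η / 16)).add ((hsq M₂).const_mul (2 * D / δ ^ 2)))) (Eventually.of_forall fun x => by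
          rw [Real.norm_eq_abs]
          exact hFF _ _)
      rw [Real.norm_eq_abs] at b2
      refine b2.trans ?_
      simp only [Pi.add_apply]
      rw [integral_add (integrable_const _) ((hsq M₂).const_mul _), integral_const_mul, integral_const]
      simp only [probReal_univ, smul_eq_mul, one_mul]
      have b3 : 2 * D / δ ^ 2 * ∫ x, (E x - u M₂ x) ^ 2 ∂(R) ≤ 2 * D / δ ^ 2 * η₃ := mul_le_mul_of_nonneg_left h2 (by positivity)
      have b4 : 2 * D / δ ^ 2 * η₃ = η / 16 := by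
        rw [hη₃]
        field_simp
        ring
      linarith
    have e1 := abs_le.1 a1
    have e2 := abs_le.1 a2
    rw [abs_le]
    constructor <;> linarith [e1.1, e1.2, e2.1, e2.2]
  refine ⟨k1 + k2 + k3 + k4 + k5, fun k hk => ?_⟩
  have f1 := hone (P k) (hPb k) (hk1 k (by omega)) (hk3 k (by omega))
  have f2 := hone (Q k) (hQb k) (hk2 k (by omega)) (hk4 k (by omega))
  have f3 := hk5 k (by omega)
  have e1 := abs_le.1 f1
  have e2 := abs_le.1 f2
  have e3 := abs_le.1 f3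
  rw [abs_le]
  constructor <;> linarith [e1.1, e1.2, e2.1, e2.2, e3.1, e3.2]

end Pool.Agent.R461.GC
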