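import Pool.Agent.R461.GC.G1
import Pool.Agent.H383.GenW
import Pool.Agent.H452R2.Win.V5

set_option autoImplicit false

/-! The mean square of the tail of the Voronoi series with respect to measures whose Fourier transform decays. -/

namespace Pool.Agent.R461.GC

open MeasureTheory Filter Topology Finset
open Pool.Agent.H383.Gauss (Tl Tl_nonneg Tl_tendsto)
open Pool.Agent.H383.Gen (U Bd)
open Pool.Agent.H452R2.Win (Bdw SandW erw)
open Pool.Agent.H383.GW (Wt wt WS er Sand WS_tail WS_low)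

/-- probability measures on `[c₁, c₂]` whose Fourier transform decays between `T ^ (1 / 10)` and `T ^ 2` -/
structure Adm (c₁ c₂ K s T : ℝ) (μ : Measure ℝ) : Prop where
  prob : IsProbabilityMeasure μ
  supp : ∀ᵐ x ∂μ, c₁ ≤ x ∧ x ≤ c₂
  dec : ∀ t : ℝ, T ^ (1 / 10 : ℝ) ≤ |t| → |t| ≤ T ^ 2 → ‖∫ x, ch t x ∂μ‖ ≤ K * |t| ^ (-s)

/-- sums of negative powers -/
lemma pow_sum (s : ℝ) (hs0 : 0 < s) (hs1 : s < 1) (n : ℕ) :
    ∑ j ∈ Icc 1 n, (j : ℝ) ^ (-s) ≤ 1 / (1 - s) * (n : ℝ) ^ (1 - s) := by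
  have h1s : 0 < 1 - s := by linarith
  induction n with
  | zero => simp [Real.zero_rpow h1s.ne']
  | succ n ih =>
    rw [Finset.sum_Icc_succ_top (by omega)]
    have hn1 : (0 : ℝ) < ((n + 1 : ℕ) : ℝ) := by positivity
    have h1 : (n : ℝ) ^ (1 - s) ≤ ((n + 1 : ℕ) : ℝ) ^ (1 - s) - (1 - s) * ((n + 1 : ℕ) : ℝ) ^ (-s) := by
      have e1 : (n : ℝ) = ((n + 1 : ℕ) : ℝ) * (1 + (-(1 / ((n + 1 : ℕ) : ℝ)))) := by
        field_simp
        push_cast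
        ring
      have e2 : (0 : ℝ) ≤ 1 + (-(1 / ((n + 1 : ℕ) : ℝ))) := by
        have : 1 / ((n + 1 : ℕ) : ℝ) ≤ 1 := by
          rw [div_le_one hn1]
          push_cast
          linarith [(Nat.cast_nonneg n : (0 : ℝ) ≤ n)]
        linarith
      have e3 : (1 + (-(1 / ((n + 1 : ℕ) : ℝ)))) ^ (1 - s) ≤ 1 + (1 - s) * (-(1 / ((n + 1 : ℕ) : ℝ))) :=
        rpow_one_add_le_one_add_mul_self (by linarith) h1s.le (by linarith)
      have e4 : ((n + 1 : ℕ) : ℝ) ^ (1 - s) * (1 / ((n + 1 : ℕ) : ℝ)) = ((n + 1 : ℕ) : ℝ) ^ (-s) := by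
        rw [show (-s) = (1 - s) + (-1) by ring, Real.rpow_add hn1, Real.rpow_neg_one, one_div]
      calc (n : ℝ) ^ (1 - s) = (((n + 1 : ℕ) : ℝ) * (1 + (-(1 / ((n + 1 : ℕ) : ℝ))))) ^ (1 - s) := by rw [← e1]
        _ = ((n + 1 : ℕ) : ℝ) ^ (1 - s) * (1 + (-(1 / ((n + 1 : ℕ) : ℝ)))) ^ (1 - s) := Real.mul_rpow hn1.le e2
        _ ≤ ((n + 1 : ℕ) : ℝ) ^ (1 - s) * (1 + (1 - s) * (-(1 / ((n + 1 : ℕ) : ℝ)))) := mul_le_mul_of_nonneg_left e3 (by positivity)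
        _ = ((n + 1 : ℕ) : ℝ) ^ (1 - s) - (1 - s) * (((n + 1 : ℕ) : ℝ) ^ (1 - s) * (1 / ((n + 1 : ℕ) : ℝ))) := by ring
        _ = _ := by rw [e4]
    have h2 : 1 / (1 - s) * (n : ℝ) ^ (1 - s) ≤ 1 / (1 - s) * (((n + 1 : ℕ) : ℝ) ^ (1 - s) - (1 - s) * ((n + 1 : ℕ) : ℝ) ^ (-s)) :=
      mul_le_mul_of_nonneg_left h1 (by positivity)
    have h3 : 1 / (1 - s) * (((n + 1 : ℕ) : ℝ) ^ (1 - s) - (1 - s) * ((n + 1 : ℕ) : ℝ) ^ (-s)) =
        1 / (1 - s) * ((n + 1 : ℕ) : ℝ) ^ (1 - s) - ((n + 1 : ℕ) : ℝ) ^ (-s) := by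
      field_simp
    linarith

/-- a convolution of negative powers -/
lemma conv_sum {a s : ℝ} (ha0 : 0 < a) (ha : a ≤ 3 / 4) (hs0 : 0 < s) (hs : s ≤ 1 / 2) (m : ℕ) (hm : 1 ≤ m) :
    ∑ j ∈ Ico 1 m, (j : ℝ) ^ (-a) * (((m - j : ℕ) : ℝ)) ^ (-s) ≤ 16 * (m : ℝ) ^ (1 - a - s) := by
  have hm0 : (0 : ℝ) < m := by exact_mod_cast hm
  have hterm : ∀ j ∈ Ico 1 m, (j : ℝ) ^ (-a) * (((m - j : ℕ) : ℝ)) ^ (-s) ≤
      ((m : ℝ) / 2) ^ (-s) * (j : ℝ) ^ (-a) + ((m : ℝ) / 2) ^ (-a) * (((m - j : ℕ) : ℝ)) ^ (-s) := by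
    intro j hj
    rw [mem_Ico] at hj
    have hj0 : (0 : ℝ) < j := by exact_mod_cast (by omega : 0 < j)
    have hmj0 : (0 : ℝ) < ((m - j : ℕ) : ℝ) := by exact_mod_cast (by omega : 0 < m - j)
    have hmj : ((m - j : ℕ) : ℝ) = (m : ℝ) - j := by rw [Nat.cast_sub (by omega)]
    rcases le_total ((m : ℝ) / 2) (((m - j : ℕ) : ℝ)) with h | h
    · have h1 : (((m - j : ℕ) : ℝ)) ^ (-s) ≤ ((m : ℝ) / 2) ^ (-s) :=
        Real.rpow_le_rpow_of_nonpos (by positivity) h (by linarith)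
      have h2 : 0 ≤ ((m : ℝ) / 2) ^ (-a) * (((m - j : ℕ) : ℝ)) ^ (-s) := by positivity
      have h3 : (j : ℝ) ^ (-a) * (((m - j : ℕ) : ℝ)) ^ (-s) ≤ (j : ℝ) ^ (-a) * ((m : ℝ) / 2) ^ (-s) :=
        mul_le_mul_of_nonneg_left h1 (by positivity)
      linarith
    · have h0 : (m : ℝ) / 2 ≤ j := by rw [hmj] at h; linarith
      have h1 : (j : ℝ) ^ (-a) ≤ ((m : ℝ) / 2) ^ (-a) :=
        Real.rpow_le_rpow_of_nonpos (by positivity) h0 (by linarith)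
      have h2 : 0 ≤ ((m : ℝ) / 2) ^ (-s) * (j : ℝ) ^ (-a) := by positivity
      have h3 : (j : ℝ) ^ (-a) * (((m - j : ℕ) : ℝ)) ^ (-s) ≤ ((m : ℝ) / 2) ^ (-a) * (((m - j : ℕ) : ℝ)) ^ (-s) :=
        mul_le_mul_of_nonneg_right h1 (by positivity)
      linarith
  refine (sum_le_sum hterm).trans ?_
  rw [sum_add_distrib, ← mul_sum, ← mul_sum]
  have h1 : ∑ j ∈ Ico 1 m, (j : ℝ) ^ (-a) ≤ 4 * (m : ℝ) ^ (1 - a) := by
    have e1 : ∑ j ∈ Ico 1 m, (j : ℝ) ^ (-a) ≤ ∑ j ∈ Icc 1 m, (j : ℝ) ^ (-a) :=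
      sum_le_sum_of_subset_of_nonneg (fun j hj => by rw [mem_Ico] at hj; rw [mem_Icc]; omega) fun j _ _ => by positivity
    have e2 := pow_sum a ha0 (by linarith) m
    have e4 : (1 / (1 - a) : ℝ) * (m : ℝ) ^ (1 - a) ≤ 4 * (m : ℝ) ^ (1 - a) := by
      apply mul_le_mul_of_nonneg_right _ (by positivity)
      rw [div_le_iff₀ (by linarith)]
      linarith
    linarith
  have h2 : ∑ j ∈ Ico 1 m, (((m - j : ℕ) : ℝ)) ^ (-s) ≤ 2 * (m : ℝ) ^ (1 - s) := by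
    have e0 : ∑ j ∈ Ico 1 m, (((m - j : ℕ) : ℝ)) ^ (-s) = ∑ j ∈ Ico 1 m, (j : ℝ) ^ (-s) := by
      apply sum_bij' (fun j _ => m - j) (fun j _ => m - j)
      · intro j hj; rw [mem_Ico] at hj ⊢; omega
      · intro j hj; rw [mem_Ico] at hj ⊢; omega
      · intro j hj; rw [mem_Ico] at hj; omega
      · intro j hj; rw [mem_Ico] at hj; omega
      · intro j hj; rfl
    have e1 : ∑ j ∈ Ico 1 m, (j : ℝ) ^ (-s) ≤ ∑ j ∈ Icc 1 m, (j : ℝ) ^ (-s) :=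
      sum_le_sum_of_subset_of_nonneg (fun j hj => by rw [mem_Ico] at hj; rw [mem_Icc]; omega) fun j _ _ => by positivity
    have e2 := pow_sum s hs0 (by linarith) m
    have e4 : (1 / (1 - s) : ℝ) * (m : ℝ) ^ (1 - s) ≤ 2 * (m : ℝ) ^ (1 - s) := by
      apply mul_le_mul_of_nonneg_right _ (by positivity)
      rw [div_le_iff₀ (by linarith)]
      linarith
    rw [e0]
    linarith
  have hhalf : ∀ b : ℝ, 0 < b → b ≤ 1 → ((m : ℝ) / 2) ^ (-b) ≤ 2 * (m : ℝ) ^ (-b) := by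
    intro b hb0 hb1
    rw [Real.div_rpow hm0.le (by norm_num), div_eq_mul_inv, ← Real.rpow_neg (by norm_num), mul_comm]
    apply mul_le_mul_of_nonneg_right _ (by positivity)
    rw [neg_neg]
    calc (2 : ℝ) ^ b ≤ 2 ^ (1 : ℝ) := Real.rpow_le_rpow_of_exponent_le (by norm_num) hb1
      _ = 2 := Real.rpow_one 2
  have h3 := hhalf s hs0 (by linarith)
  have h4 := hhalf a ha0 (by linarith)
  calc ((m : ℝ) / 2) ^ (-s) * ∑ j ∈ Ico 1 m, (j : ℝ) ^ (-a) +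
        ((m : ℝ) / 2) ^ (-a) * ∑ j ∈ Ico 1 m, (((m - j : ℕ) : ℝ)) ^ (-s)
      ≤ (2 * (m : ℝ) ^ (-s)) * (4 * (m : ℝ) ^ (1 - a)) + (2 * (m : ℝ) ^ (-a)) * (2 * (m : ℝ) ^ (1 - s)) :=
        add_le_add (mul_le_mul h3 h1 (sum_nonneg fun j _ => by positivity) (by positivity))
          (mul_le_mul h4 h2 (sum_nonneg fun j _ => by positivity) (by positivity))
    _ = 8 * ((m : ℝ) ^ (-s) * (m : ℝ) ^ (1 - a)) + 4 * ((m : ℝ) ^ (-a) * (m : ℝ) ^ (1 - s)) := by ring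
    _ = 12 * (m : ℝ) ^ (1 - a - s) := by
        rw [← Real.rpow_add hm0, ← Real.rpow_add hm0]
        rw [show -s + (1 - a) = 1 - a - s by ring, show -a + (1 - s) = 1 - a - s by ring]
        ring
    _ ≤ 16 * (m : ℝ) ^ (1 - a - s) := by
        apply mul_le_mul_of_nonneg_right (by norm_num) (by positivity)

/-- the mean square of an exponential polynomial -/
lemma quad_form (μ : Measure ℝ) [IsProbabilityMeasure μ] (S : Finset ℕ) (c : ℕ → ℂ) (l : ℕ → ℝ) :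
    ∫ x, ‖∑ m ∈ S, c m * ch (l m) x‖ ^ 2 ∂μ ≤ ∑ m ∈ S, ∑ m' ∈ S, ‖c m‖ * ‖c m'‖ * ‖∫ x, ch (l m - l m') x ∂μ‖ := by
  have hint : ∀ θ : ℝ, Integrable (ch θ) μ := fun θ =>
    Integrable.of_bound (ch_cont θ).aestronglyMeasurable 1 (Eventually.of_forall fun x => (norm_ch θ x).le)
  have h1 : ((∫ x, ‖∑ m ∈ S, c m * ch (l m) x‖ ^ 2 ∂μ : ℝ) : ℂ) =
      ∑ m ∈ S, ∑ m' ∈ S, (c m * (starRingEnd ℂ) (c m')) * ∫ x, ch (l m - l m') x ∂μ := by
    rw [← integral_complex_ofReal]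
    have h2 : ∀ x, ((‖∑ m ∈ S, c m * ch (l m) x‖ ^ 2 : ℝ) : ℂ) =
        ∑ m ∈ S, ∑ m' ∈ S, (c m * (starRingEnd ℂ) (c m')) * ch (l m - l m') x := by
      intro x
      push_cast
      rw [← Complex.mul_conj', map_sum, sum_mul_sum]
      apply sum_congr rfl
      intro m _
      apply sum_congr rfl
      intro m' _
      rw [map_mul]
      have h3 : ch (l m - l m') x = ch (l m) x * (starRingEnd ℂ) (ch (l m') x) := by
        unfold ch
        rw [← Complex.exp_conj, map_mul, Complex.conj_ofReal, Complex.conj_I, ← Complex.exp_add]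
        congr 1
        push_cast
        ring
      rw [h3]
      ring
    simp_rw [h2]
    rw [integral_finsetSum]
    · apply sum_congr rfl
      intro m _
      rw [integral_finsetSum]
      · apply sum_congr rfl
        intro m' _
        rw [integral_const_mul]
      · intro m' _
        exact (hint _).const_mul _
    · intro m _
      exact integrable_finsetSum _ fun m' _ => (hint _).const_mul _
  have h4 : 0 ≤ ∫ x, ‖∑ m ∈ S, c m * ch (l m) x‖ ^ 2 ∂μ := integral_nonneg fun x => by positivity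
  have h5 : ‖((∫ x, ‖∑ m ∈ S, c m * ch (l m) x‖ ^ 2 ∂μ : ℝ) : ℂ)‖ = ∫ x, ‖∑ m ∈ S, c m * ch (l m) x‖ ^ 2 ∂μ := by
    rw [Complex.norm_real, Real.norm_eq_abs, abs_of_nonneg h4]
  rw [← h5, h1]
  refine (norm_sum_le _ _).trans (sum_le_sum fun m _ => (norm_sum_le _ _).trans (sum_le_sum fun m' _ => ?_))
  rw [norm_mul, norm_mul, RCLike.norm_conj]

/-- differences of square roots -/
lemma sqrt_diff {m m' : ℕ} (h : m' < m) : ((m - m' : ℕ) : ℝ) / (2 * √(m : ℝ)) ≤ √(m : ℝ) - √(m' : ℝ) := by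
  have hm0 : (0 : ℝ) < m := by exact_mod_cast (by omega : 0 < m)
  have hs : 0 < √(m : ℝ) := Real.sqrt_pos.2 hm0
  have hs' : 0 ≤ √(m' : ℝ) := Real.sqrt_nonneg _
  have h1 : √(m' : ℝ) ≤ √(m : ℝ) := Real.sqrt_le_sqrt (by exact_mod_cast h.le)
  rw [div_le_iff₀ (by positivity), Nat.cast_sub h.le]
  have e1 := Real.mul_self_sqrt hm0.le
  have e2 := Real.mul_self_sqrt (Nat.cast_nonneg m' : (0 : ℝ) ≤ m')
  nlinarith

/-- the mean square of the tail -/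
theorem tail_ms {a : ℕ → ℝ} {w : ℝ → ℂ} (ha : Bdw a) (hw : Wt w) {c₁ c₂ K s τ al ρ : ℝ} (hK : 0 ≤ K) (hs0 : 1 / 4 ≤ s) (hs : s ≤ 2 / 5) (hτ0 : 0 < τ) (hτ : τ ≤ 1 / 200)
    (hal : al = 3 / 4 - τ) (hρ : ρ = 1 - s + 5 * τ) (φ κ : ℝ) :
    ∃ C : ℝ, 0 < C ∧ ∀ T δ : ℝ, 1 ≤ T → 0 < δ → ∀ μ : Measure ℝ, Adm c₁ c₂ K s T μ → ∀ M Y : ℕ, 1 ≤ M → 2 * Real.pi * T * Y ≤ T ^ 2 → (Y : ℝ) ≤ T ^ (9 / 10 : ℝ) →
      ∫ x, (∑ m ∈ Ioc (M ^ 2) (Y ^ 2), wt a φ w (T * x + κ * δ) δ m) ^ 2 ∂μ ≤ C * (Tl M + T ^ (-s) * δ ^ (-ρ)) := by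
  classical
  obtain ⟨A, hA, hAa⟩ := ha τ hτ0
  rw [show -(3 / 4 : ℝ) + τ = -al by rw [hal]; ring] at hAa
  obtain ⟨Cw, hCw, hwd⟩ := hw.dec
  obtain ⟨Z, hZd⟩ : ∃ Z : ℝ, Z = ∑' k : ℕ, (k : ℝ) ^ (-(1 + τ / 2)) := ⟨_, rfl⟩
  have hZs : Summable (fun k : ℕ => (k : ℝ) ^ (-(1 + τ / 2))) := by
    rw [Real.summable_nat_rpow]; linarith
  have hZ0 : 0 ≤ Z := by rw [hZd]; exact tsum_nonneg fun k => by positivity
  have hπ := Real.pi_gt_three
  -- the weight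
  have hw1 : ∀ y : ℝ, 0 < y → ‖w y‖ ≤ (1 + Cw) * y ^ (-ρ) := by
    intro y hy
    rcases le_total y 1 with h | h
    · have e1 := hw.one y hy
      have e2 : 1 ≤ y ^ (-ρ) := Real.one_le_rpow_of_pos_of_le_one_of_nonpos hy h (by linarith)
      nlinarith
    · have e1 := hwd y hy
      have e2 : y ^ (-(3 / 2) : ℝ) ≤ y ^ (-ρ) := Real.rpow_le_rpow_of_exponent_le h (by linarith)
      have e3 : 0 ≤ y ^ (-ρ) := by positivity
      nlinarith
  refine ⟨A ^ 2 + 32 * K * A ^ 2 * (1 + Cw) * Z + 1, by positivity, fun T δ hT hδ μ hμ M Y hM hY hY9 => ?_⟩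
  have hT0 : 0 < T := by linarith
  have := hμ.prob
  obtain ⟨S, hS⟩ : ∃ S, S = Ioc (M ^ 2) (Y ^ 2) := ⟨_, rfl⟩
  rw [← hS]
  obtain ⟨c, hc⟩ : ∃ c : ℕ → ℂ, c = fun m : ℕ => ((a m : ℝ) : ℂ) * (Complex.exp (((2 * Real.pi * (κ * δ * √(m : ℝ)) - φ : ℝ) : ℂ) * Complex.I) * w (√(m : ℝ) * δ)) := ⟨_, rfl⟩
  obtain ⟨l, hl⟩ : ∃ l : ℕ → ℝ, l = fun m : ℕ => 2 * Real.pi * T * √(m : ℝ) := ⟨_, rfl⟩
  have hSm : ∀ m ∈ S, 1 ≤ m ∧ M ^ 2 < m ∧ m ≤ Y ^ 2 := by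
    intro m hm
    rw [hS, mem_Ioc] at hm
    exact ⟨by omega, hm.1, hm.2⟩
  -- the sum is a real part
  have hre : ∀ x, (∑ m ∈ S, wt a φ w (T * x + κ * δ) δ m) ^ 2 ≤ ‖∑ m ∈ S, c m * ch (l m) x‖ ^ 2 := by
    intro x
    have h1 : ∑ m ∈ S, wt a φ w (T * x + κ * δ) δ m = (∑ m ∈ S, c m * ch (l m) x).re := by
      rw [Complex.re_sum]
      apply sum_congr rfl
      intro m _
      unfold wt
      rw [hc, hl]
      simp only
      rw [← Complex.re_ofReal_mul]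
      congr 1
      unfold ch
      have e1 : Complex.exp (((2 * Real.pi * ((T * x + κ * δ) * √(m : ℝ)) - φ : ℝ) : ℂ) * Complex.I) =
          Complex.exp (((2 * Real.pi * (κ * δ * √(m : ℝ)) - φ : ℝ) : ℂ) * Complex.I) *
            Complex.exp (((2 * Real.pi * T * √(m : ℝ) * x : ℝ) : ℂ) * Complex.I) := by
        rw [← Complex.exp_add]
        congr 1
        push_cast
        ring
      rw [e1]
      ring
    rw [h1, ← sq_abs]
    exact pow_le_pow_left₀ (abs_nonneg _) (Complex.abs_re_le_norm _) 2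
  have hint : Integrable (fun x => ‖∑ m ∈ S, c m * ch (l m) x‖ ^ 2) μ := by
    have hcont : Continuous (fun x => ‖∑ m ∈ S, c m * ch (l m) x‖ ^ 2) := by
      apply Continuous.pow
      apply Continuous.norm
      exact continuous_finsetSum _ fun m _ => continuous_const.mul (ch_cont _)
    refine Integrable.of_bound hcont.aestronglyMeasurable ((∑ m ∈ S, ‖c m‖) ^ 2) (Eventually.of_forall fun x => ?_)
    rw [Real.norm_eq_abs, abs_of_nonneg (by positivity)]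
    apply pow_le_pow_left₀ (norm_nonneg _)
    refine (norm_sum_le _ _).trans (sum_le_sum fun m _ => ?_)
    rw [norm_mul, norm_ch, mul_one]
  have h0 : ∫ x, (∑ m ∈ S, wt a φ w (T * x + κ * δ) δ m) ^ 2 ∂μ ≤ ∫ x, ‖∑ m ∈ S, c m * ch (l m) x‖ ^ 2 ∂μ :=
    integral_mono_of_nonneg (Eventually.of_forall fun x => sq_nonneg _) hint (Eventually.of_forall hre)
  refine h0.trans ((quad_form μ S c l).trans ?_)
  -- the coefficients
  have hcn : ∀ m : ℕ, ‖c m‖ = |a m| * ‖w (√(m : ℝ) * δ)‖ := by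
    intro m
    rw [hc]
    simp only
    rw [norm_mul, norm_mul, Complex.norm_exp_ofReal_mul_I, one_mul, Complex.norm_real, Real.norm_eq_abs]
  have hc1 : ∀ m : ℕ, 1 ≤ m → ‖c m‖ ≤ A * (m : ℝ) ^ (-al) := by
    intro m hm
    have hm0 : (0 : ℝ) < m := by exact_mod_cast hm
    have hsm : 0 < √(m : ℝ) := Real.sqrt_pos.2 hm0
    rw [hcn]
    have e1 := hAa m hm
    have e2 := hw.one (√(m : ℝ) * δ) (by positivity)
    calc |a m| * ‖w (√(m : ℝ) * δ)‖ ≤ |a m| * 1 := mul_le_mul_of_nonneg_left e2 (abs_nonneg _)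
      _ ≤ _ := by rw [mul_one]; exact e1
  have hc2 : ∀ m : ℕ, 1 ≤ m → ‖c m‖ ≤ A * (1 + Cw) * δ ^ (-ρ) * (m : ℝ) ^ (-(al + ρ / 2)) := by
    intro m hm
    have hm0 : (0 : ℝ) < m := by exact_mod_cast hm
    have hsm : 0 < √(m : ℝ) := Real.sqrt_pos.2 hm0
    rw [hcn]
    have e1 := hAa m hm
    have e2 := hw1 (√(m : ℝ) * δ) (by positivity)
    have e4 : (√(m : ℝ) * δ) ^ (-ρ) = (m : ℝ) ^ (-(ρ / 2)) * δ ^ (-ρ) := by
      rw [Real.mul_rpow hsm.le hδ.le, Real.sqrt_eq_rpow, ← Real.rpow_mul hm0.le]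
      congr 2
      ring
    rw [e4] at e2
    have e5 : (m : ℝ) ^ (-(al + ρ / 2)) = (m : ℝ) ^ (-al) * (m : ℝ) ^ (-(ρ / 2)) := by
      rw [← Real.rpow_add hm0]
      congr 1
      ring
    calc |a m| * ‖w (√(m : ℝ) * δ)‖ ≤ (A * (m : ℝ) ^ (-al)) * ((1 + Cw) * ((m : ℝ) ^ (-(ρ / 2)) * δ ^ (-ρ))) :=
          mul_le_mul e1 e2 (norm_nonneg _) (by positivity)
      _ = _ := by rw [e5]; ring
  -- the off diagonal terms
  obtain ⟨G, hG⟩ : ∃ G : ℕ → ℕ → ℝ, G = fun (m j : ℕ) => K * (T ^ (-s) * (m : ℝ) ^ (s / 2) * (((m - j : ℕ) : ℝ)) ^ (-s)) *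
    ((A * (1 + Cw) * δ ^ (-ρ) * (m : ℝ) ^ (-(al + ρ / 2))) * (A * (j : ℝ) ^ (-al))) := ⟨_, rfl⟩
  have hG0 : ∀ m j, 0 ≤ G m j := fun m j => by rw [hG]; positivity
  have hoff : ∀ m ∈ S, ∀ j ∈ S, j < m → ‖c m‖ * ‖c j‖ * ‖∫ x, ch (l m - l j) x ∂μ‖ ≤ G m j := by
    intro m hm j hj hjm
    obtain ⟨hm1, hm2, hm3⟩ := hSm m hm
    obtain ⟨hj1, hj2, hj3⟩ := hSm j hj
    have hm0 : (0 : ℝ) < m := by exact_mod_cast (by omega : 0 < m)
    have hsm : 0 < √(m : ℝ) := Real.sqrt_pos.2 hm0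
    have hmj0 : (0 : ℝ) < ((m - j : ℕ) : ℝ) := by exact_mod_cast (by omega : 0 < m - j)
    have hd := sqrt_diff hjm
    have hld : l m - l j = 2 * Real.pi * T * (√(m : ℝ) - √(j : ℝ)) := by rw [hl]; ring
    have hlow : T * ((m - j : ℕ) : ℝ) / √(m : ℝ) ≤ l m - l j := by
      rw [hld]
      have e1 : T * ((m - j : ℕ) : ℝ) / √(m : ℝ) = 2 * 1 * T * (((m - j : ℕ) : ℝ) / (2 * √(m : ℝ))) := by
        field_simp
      rw [e1]
      have e2 : 0 ≤ ((m - j : ℕ) : ℝ) / (2 * √(m : ℝ)) := by positivity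
      have e3 : (2 * 1 * T) ≤ 2 * Real.pi * T := by nlinarith
      exact mul_le_mul e3 hd e2 (by positivity)
    have hlpos : 0 < T * ((m - j : ℕ) : ℝ) / √(m : ℝ) := by positivity
    have hl0 : 0 < l m - l j := lt_of_lt_of_le hlpos hlow
    have hup : |l m - l j| ≤ T ^ 2 := by
      rw [abs_of_pos hl0, hld]
      have e1 : √(m : ℝ) - √(j : ℝ) ≤ Y := by
        have e2 : √(m : ℝ) ≤ Y := by
          rw [Real.sqrt_le_left (by positivity)]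
          exact_mod_cast hm3
        linarith [Real.sqrt_nonneg (j : ℝ)]
      refine le_trans ?_ hY
      exact mul_le_mul_of_nonneg_left e1 (by positivity)
    have hlo10 : T ^ (1 / 10 : ℝ) ≤ |l m - l j| := by
      rw [abs_of_pos hl0]
      refine le_trans ?_ hlow
      have e2 : √(m : ℝ) ≤ T ^ (9 / 10 : ℝ) := by
        refine le_trans ?_ hY9
        rw [Real.sqrt_le_left (by positivity)]
        exact_mod_cast hm3
      have e3 : (1 : ℝ) ≤ ((m - j : ℕ) : ℝ) := by exact_mod_cast (by omega : 1 ≤ m - j)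
      rw [le_div_iff₀ hsm]
      calc T ^ (1 / 10 : ℝ) * √(m : ℝ) ≤ T ^ (1 / 10 : ℝ) * T ^ (9 / 10 : ℝ) := mul_le_mul_of_nonneg_left e2 (by positivity)
        _ = T := by rw [← Real.rpow_add hT0]; norm_num
        _ ≤ T * ((m - j : ℕ) : ℝ) := le_mul_of_one_le_right hT0.le e3
    have hdec := hμ.dec (l m - l j) hlo10 hup
    rw [abs_of_pos hl0] at hdec
    have hdec2 : (l m - l j) ^ (-s) ≤ T ^ (-s) * (m : ℝ) ^ (s / 2) * (((m - j : ℕ) : ℝ)) ^ (-s) := by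
      refine (Real.rpow_le_rpow_of_nonpos hlpos hlow (by linarith)).trans (le_of_eq ?_)
      rw [div_eq_mul_inv, Real.mul_rpow (by positivity) (by positivity), Real.mul_rpow hT0.le hmj0.le, Real.inv_rpow hsm.le,
        ← Real.rpow_neg hsm.le, neg_neg, Real.sqrt_eq_rpow, ← Real.rpow_mul hm0.le]
      have : (1 / 2 * s : ℝ) = s / 2 := by ring
      rw [this]
      ring
    have e6 : ‖∫ x, ch (l m - l j) x ∂μ‖ ≤ K * (T ^ (-s) * (m : ℝ) ^ (s / 2) * (((m - j : ℕ) : ℝ)) ^ (-s)) :=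
      hdec.trans (mul_le_mul_of_nonneg_left hdec2 hK)
    rw [hG]
    simp only
    rw [mul_comm (‖c m‖ * ‖c j‖)]
    apply mul_le_mul e6 _ (by positivity) (by positivity)
    exact mul_le_mul (hc2 m hm1) (hc1 j hj1) (norm_nonneg _) (by positivity)
  have hGsum : ∀ m : ℕ, 1 ≤ m → ∑ j ∈ Ico 1 m, G m j ≤ 16 * K * A ^ 2 * (1 + Cw) * (T ^ (-s) * δ ^ (-ρ)) * (m : ℝ) ^ (-(1 + τ / 2)) := by
    intro m hm
    have hm0 : (0 : ℝ) < m := by exact_mod_cast hm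
    rw [hG]
    simp only
    have e1 : ∀ j ∈ Ico 1 m, K * (T ^ (-s) * (m : ℝ) ^ (s / 2) * (((m - j : ℕ) : ℝ)) ^ (-s)) *
        ((A * (1 + Cw) * δ ^ (-ρ) * (m : ℝ) ^ (-(al + ρ / 2))) * (A * (j : ℝ) ^ (-al))) =
        (K * A ^ 2 * (1 + Cw) * (T ^ (-s) * δ ^ (-ρ)) * ((m : ℝ) ^ (s / 2) * (m : ℝ) ^ (-(al + ρ / 2)))) *
          ((j : ℝ) ^ (-al) * (((m - j : ℕ) : ℝ)) ^ (-s)) := fun j _ => by ring
    rw [sum_congr rfl e1, ← mul_sum]
    calc (K * A ^ 2 * (1 + Cw) * (T ^ (-s) * δ ^ (-ρ)) * ((m : ℝ) ^ (s / 2) * (m : ℝ) ^ (-(al + ρ / 2)))) *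
          ∑ j ∈ Ico 1 m, (j : ℝ) ^ (-al) * (((m - j : ℕ) : ℝ)) ^ (-s)
        ≤ (K * A ^ 2 * (1 + Cw) * (T ^ (-s) * δ ^ (-ρ)) * ((m : ℝ) ^ (s / 2) * (m : ℝ) ^ (-(al + ρ / 2)))) *
          (16 * (m : ℝ) ^ (1 - al - s)) := mul_le_mul_of_nonneg_left (conv_sum (by linarith) (by linarith) (by linarith) (by linarith) m hm) (by positivity)
      _ = 16 * K * A ^ 2 * (1 + Cw) * (T ^ (-s) * δ ^ (-ρ)) *
          ((m : ℝ) ^ (s / 2) * (m : ℝ) ^ (-(al + ρ / 2)) * (m : ℝ) ^ (1 - al - s)) := by ring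
      _ = _ := by
          rw [← Real.rpow_add hm0, ← Real.rpow_add hm0]
          congr 2
          rw [hal, hρ]
          ring
  -- the diagonal
  have hdiag : ∀ m ∈ S, ‖c m‖ * ‖c m‖ * ‖∫ x, ch (l m - l m) x ∂μ‖ ≤ A ^ 2 * (m : ℝ) ^ (-(101 / 100) : ℝ) := by
    intro m hm
    obtain ⟨hm1, _, _⟩ := hSm m hm
    have hm0 : (0 : ℝ) < m := by exact_mod_cast (by omega : 0 < m)
    have hm1' : (1 : ℝ) ≤ m := by exact_mod_cast hm1
    rw [sub_self, ch_zero]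
    simp only [Pi.one_apply, integral_const, probReal_univ, one_smul, norm_one, mul_one]
    calc ‖c m‖ * ‖c m‖ ≤ (A * (m : ℝ) ^ (-al)) * (A * (m : ℝ) ^ (-al)) :=
          mul_le_mul (hc1 m hm1) (hc1 m hm1) (norm_nonneg _) (by positivity)
      _ = A ^ 2 * ((m : ℝ) ^ (-al) * (m : ℝ) ^ (-al)) := by ring
      _ ≤ A ^ 2 * (m : ℝ) ^ (-(101 / 100) : ℝ) := by
          apply mul_le_mul_of_nonneg_left _ (by positivity)
          rw [← Real.rpow_add hm0]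
          exact Real.rpow_le_rpow_of_exponent_le hm1' (by linarith)
  have hsplit : ∀ m ∈ S, ∀ j ∈ S, ‖c m‖ * ‖c j‖ * ‖∫ x, ch (l m - l j) x ∂μ‖ ≤
      (if m = j then A ^ 2 * (m : ℝ) ^ (-(101 / 100) : ℝ) else 0) + ((if j < m then G m j else 0) + (if m < j then G j m else 0)) := by
    intro m hm j hj
    rcases lt_trichotomy m j with h | h | h
    · rw [if_neg h.ne, if_neg (by omega), if_pos h, zero_add, zero_add]
      have h1 := hoff j hj m hm h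
      have h2 : ‖∫ x, ch (l m - l j) x ∂μ‖ = ‖∫ x, ch (l j - l m) x ∂μ‖ := by
        have e1 : ∫ x, ch (l m - l j) x ∂μ = (starRingEnd ℂ) (∫ x, ch (l j - l m) x ∂μ) := by
          rw [← integral_conj]
          congr 1
          funext x
          unfold ch
          rw [← Complex.exp_conj, map_mul, Complex.conj_ofReal, Complex.conj_I]
          congr 1
          push_cast
          ring
        rw [e1, RCLike.norm_conj]
      rw [h2, mul_comm ‖c m‖]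
      exact h1
    · subst h
      rw [if_pos rfl, if_neg (lt_irrefl _), add_zero, add_zero]
      exact hdiag m hm
    · rw [if_neg h.ne', if_pos h, if_neg (by omega), zero_add, add_zero]
      exact hoff m hm j hj h
  have hGm : ∀ m ∈ S, ∑ j ∈ S, (if j < m then G m j else 0) ≤
      16 * K * A ^ 2 * (1 + Cw) * (T ^ (-s) * δ ^ (-ρ)) * (m : ℝ) ^ (-(1 + τ / 2)) := by
    intro m hm
    obtain ⟨hm1, _, _⟩ := hSm m hm
    refine le_trans ?_ (hGsum m hm1)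
    rw [← sum_filter]
    apply sum_le_sum_of_subset_of_nonneg _ (fun j _ _ => hG0 m j)
    intro j hj
    rw [mem_filter] at hj
    obtain ⟨hj1, _, _⟩ := hSm j hj.1
    rw [mem_Ico]
    exact ⟨hj1, hj.2⟩
  have hZsum : ∑ m ∈ S, (m : ℝ) ^ (-(1 + τ / 2)) ≤ Z := by
    rw [hZd]
    exact hZs.sum_le_tsum S fun k _ => by positivity
  have hoffsum : ∑ m ∈ S, ∑ j ∈ S, (if j < m then G m j else 0) ≤ 16 * K * A ^ 2 * (1 + Cw) * (T ^ (-s) * δ ^ (-ρ)) * Z := by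
    refine (sum_le_sum hGm).trans ?_
    rw [← mul_sum]
    exact mul_le_mul_of_nonneg_left hZsum (by positivity)
  have hoffsum2 : ∑ m ∈ S, ∑ j ∈ S, (if m < j then G j m else 0) ≤ 16 * K * A ^ 2 * (1 + Cw) * (T ^ (-s) * δ ^ (-ρ)) * Z := by
    rw [sum_comm]
    exact hoffsum
  have hdiagsum : ∑ m ∈ S, A ^ 2 * (m : ℝ) ^ (-(101 / 100) : ℝ) ≤ A ^ 2 * Tl M := by
    rw [← mul_sum]
    apply mul_le_mul_of_nonneg_left _ (by positivity)
    have hs101 : Summable (fun k : ℕ => (k : ℝ) ^ (-(101 / 100) : ℝ)) := by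
      rw [Real.summable_nat_rpow]; norm_num
    have h1 : Summable (fun q : ℕ => (((q + M : ℕ)) : ℝ) ^ (-(101 / 100) : ℝ)) := (summable_nat_add_iff M).2 hs101
    have h2 : ∑ m ∈ S, (m : ℝ) ^ (-(101 / 100) : ℝ) = ∑ q ∈ S.image (fun m => m - M), (((q + M : ℕ)) : ℝ) ^ (-(101 / 100) : ℝ) := by
      have hMM : ∀ m ∈ S, M ≤ m := by
        intro m hm
        obtain ⟨_, h3, _⟩ := hSm m hm
        have : M ≤ M ^ 2 := Nat.le_self_pow (by norm_num) M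
        omega
      rw [sum_image]
      · apply sum_congr rfl
        intro m hm
        rw [Nat.sub_add_cancel (hMM m hm)]
      · intro x hx y hy hxy
        have := hMM x hx
        have := hMM y hy
        simp only at hxy
        omega
    rw [h2]
    exact h1.sum_le_tsum _ fun q _ => by positivity
  have htotal : ∑ m ∈ S, ∑ j ∈ S, ‖c m‖ * ‖c j‖ * ‖∫ x, ch (l m - l j) x ∂μ‖ ≤
      A ^ 2 * Tl M + (16 * K * A ^ 2 * (1 + Cw) * (T ^ (-s) * δ ^ (-ρ)) * Z +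
        16 * K * A ^ 2 * (1 + Cw) * (T ^ (-s) * δ ^ (-ρ)) * Z) := by
    refine (sum_le_sum fun m hm => sum_le_sum fun j hj => hsplit m hm j hj).trans ?_
    simp only [sum_add_distrib]
    apply add_le_add
    · refine le_trans (le_of_eq ?_) hdiagsum
      apply sum_congr rfl
      intro m hm
      rw [sum_ite_eq S m]
      rw [if_pos hm]
    · exact add_le_add hoffsum hoffsum2
  refine htotal.trans ?_
  have hTl := Tl_nonneg M
  have hX : 0 ≤ T ^ (-s) * δ ^ (-ρ) := by positivity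
  have hc3 : 0 ≤ 32 * K * A ^ 2 * (1 + Cw) * Z := by positivity
  nlinarith [mul_nonneg hc3 hTl, mul_nonneg (sq_nonneg A) hX]

end Pool.Agent.R461.GC
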