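import Pool.Agent.R461.GC.G2

set_option autoImplicit false

/-! Approximation in mean square with respect to measures whose Fourier transform decays. -/

namespace Pool.Agent.R461.GC

open MeasureTheory Filter Topology Finset
open Pool.Agent.H383.Gauss (Tl Tl_nonneg Tl_tendsto)
open Pool.Agent.H383.Gen (U Bd)
open Pool.Agent.H452R2.Win (Bdw SandW erw)
open Pool.Agent.H383.GW (Wt wt WS er Sand WS_tail WS_low abs_wt_le)

lemma wt_cont (a : ℕ → ℝ) (φ : ℝ) (w : ℝ → ℂ) (T κ δ : ℝ) (m : ℕ) : Continuous (fun x : ℝ => wt a φ w (T * x + κ * δ) δ m) := by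
  unfold wt
  fun_prop

/-- powers of `T` -/
lemma pow_small (c : ℝ) (hc : 0 < c) {η : ℝ} (hη : 0 < η) (D : ℝ) : ∃ T₀ : ℝ, ∀ T, T₀ ≤ T → D * T ^ (-c) ≤ η := by
  have h1 := (tendsto_rpow_neg_atTop hc).const_mul D
  rw [mul_zero] at h1
  have h2 := h1.eventually (gt_mem_nhds hη)
  obtain ⟨T₀, hT₀⟩ := Filter.eventually_atTop.1 h2
  exact ⟨T₀, fun T hT => (hT₀ T hT).le⟩

lemma sq_three (a b c : ℝ) : (a + b + c) ^ 2 ≤ 3 * (a ^ 2 + b ^ 2 + c ^ 2) := by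
  nlinarith [sq_nonneg (a - b), sq_nonneg (a - c), sq_nonneg (b - c)]

theorem tail_conv {a : ℕ → ℝ} {φ : ℝ} {w : ℝ → ℂ} {E : ℝ → ℝ} {κ₁ κ₂ : ℝ} (haE : Bdw a) (ha0 : a 0 = 0) (hw : Wt w)
    (hS : SandW E a φ w κ₁ κ₂) {c₁ c₂ K s : ℝ} (hc₁ : 0 < c₁) (hc : c₁ ≤ c₂) (hK : 0 ≤ K) (hs0 : 1 / 3 < s) (hs : s ≤ 2 / 5) :
    ∀ η : ℝ, 0 < η → ∃ M₀ : ℕ, ∀ M, M₀ ≤ M → ∃ T₀ : ℝ, ∀ T, T₀ ≤ T → ∀ μ : Measure ℝ, Adm c₁ c₂ K s T μ →
      ∫ x, (E (T * x) - U a φ (T * x) M) ^ 2 ∂μ ≤ η := by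
  classical
  intro η hη
  have ha : Bd a := haE.Bd
  obtain ⟨Ct, hCt, htail⟩ := WS_tail (φ := φ) ha ha0 hw
  obtain ⟨τ, hτd⟩ : ∃ τ : ℝ, τ = min (1 / 200) ((s - 1 / 3) / 8) := ⟨_, rfl⟩
  have hτ0 : 0 < τ := by rw [hτd]; exact lt_min (by norm_num) (by linarith)
  have hτ1 : τ ≤ 1 / 200 := by rw [hτd]; exact min_le_left _ _
  have hτ2 : 8 * τ ≤ s - 1 / 3 := by
    have : τ ≤ (s - 1 / 3) / 8 := by rw [hτd]; exact min_le_right _ _
    linarith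
  obtain ⟨C0, hC0, hS⟩ := hS (τ / 2) (by positivity)
  obtain ⟨ρ, hρd⟩ : ∃ ρ : ℝ, ρ = 1 - s + 5 * τ := ⟨_, rfl⟩
  obtain ⟨C1, hC1, hms1⟩ := tail_ms (c₁ := c₁) (c₂ := c₂) (s := s) haE hw hK (by linarith) hs hτ0 hτ1 rfl hρd φ κ₁
  obtain ⟨C2, hC2, hms2⟩ := tail_ms (c₁ := c₁) (c₂ := c₂) (s := s) haE hw hK (by linarith) hs hτ0 hτ1 rfl hρd φ κ₂
  have hc₂ : 0 < c₂ := by linarith
  have hTl : Tendsto (fun M => 3 * (C1 + C2) * Tl M) atTop (𝓝 0) := by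
    have := Tl_tendsto.const_mul (3 * (C1 + C2))
    rwa [mul_zero] at this
  obtain ⟨M₀, hM₀⟩ := Filter.eventually_atTop.1 (hTl.eventually (gt_mem_nhds (show 0 < η / 2 by linarith)))
  refine ⟨M₀ + 1, fun M hM => ?_⟩
  have hTM := hM₀ M (by omega)
  obtain ⟨K₁, hK₁, hlow₁⟩ := WS_low a φ hw κ₁ M
  obtain ⟨K₂, hK₂, hlow₂⟩ := WS_low a φ hw κ₂ M
  -- the constant of the error terms
  obtain ⟨D, hD⟩ : ∃ D : ℝ, D = 2 * Ct + K₁ + K₂ + C0 * (c₂ ^ (1 / 2 + τ / 2) + c₁ ^ (-(12 / 25) : ℝ) + 1) := ⟨_, rfl⟩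
  have hDpos : 0 < D := by rw [hD]; positivity
  obtain ⟨T1, hT1⟩ := pow_small τ hτ0 (show 0 < η / 4 by linarith) (3 * (C1 + C2))
  obtain ⟨T2, hT2⟩ := pow_small τ hτ0 (show 0 < η / 4 by linarith) (3 * D ^ 2)
  obtain ⟨T3, hT3⟩ := pow_small (1 / 2 + τ) (by linarith) (show (0 : ℝ) < 1 / 2 by norm_num) 1
  obtain ⟨T4, hT4⟩ := pow_small (1 / 10) (by norm_num) (show (0 : ℝ) < 1 by norm_num) (2 * Real.pi)
  obtain ⟨T5, hT5⟩ := pow_small (9 / 10) (by norm_num) (show (0 : ℝ) < 1 by norm_num) (M + 2)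
  refine ⟨max (max (max T1 T2) (max T3 T4)) (max T5 (max 1 (4 / c₁))), fun T hT μ hμ => ?_⟩
  have g1 : T1 ≤ T := le_trans (le_trans (le_max_left _ _) (le_trans (le_max_left _ _) (le_max_left _ _))) hT
  have g2 : T2 ≤ T := le_trans (le_trans (le_max_right _ _) (le_trans (le_max_left _ _) (le_max_left _ _))) hT
  have g3 : T3 ≤ T := le_trans (le_trans (le_max_left _ _) (le_trans (le_max_right _ _) (le_max_left _ _))) hT
  have g4 : T4 ≤ T := le_trans (le_trans (le_max_right _ _) (le_trans (le_max_right _ _) (le_max_left _ _))) hT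
  have g5 : T5 ≤ T := le_trans (le_trans (le_max_left _ _) (le_max_right _ _)) hT
  have g6 : 1 ≤ T := le_trans (le_trans (le_max_left _ _) (le_trans (le_max_right _ _) (le_max_right _ _))) hT
  have g7 : 4 / c₁ ≤ T := le_trans (le_trans (le_max_right _ _) (le_trans (le_max_right _ _) (le_max_right _ _))) hT
  have hT0 : 0 < T := by linarith
  have h1 := hT1 T g1
  have h2 := hT2 T g2
  have h3 := hT3 T g3
  have h4 := hT4 T g4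
  have h5 := hT5 T g5
  obtain ⟨δ, hδ⟩ : ∃ δ : ℝ, δ = T ^ (-(1 / 2 + τ)) := ⟨_, rfl⟩
  have hδ0 : 0 < δ := by rw [hδ]; positivity
  rw [one_mul, ← hδ] at h3
  obtain ⟨Y, hY⟩ : ∃ Y : ℕ, Y = ⌊T ^ (9 / 10 : ℝ)⌋₊ := ⟨_, rfl⟩
  have hT9 : (M : ℝ) + 2 ≤ T ^ (9 / 10 : ℝ) := by
    rw [Real.rpow_neg hT0.le, mul_inv_le_iff₀ (by positivity)] at h5
    linarith
  have hY1 : (Y : ℝ) ≤ T ^ (9 / 10 : ℝ) := by rw [hY]; exact Nat.floor_le (by positivity)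
  have hY2 : T ^ (9 / 10 : ℝ) / 2 ≤ Y := by
    have e1 : T ^ (9 / 10 : ℝ) < Y + 1 := by rw [hY]; exact Nat.lt_floor_add_one _
    have e2 : (2 : ℝ) ≤ T ^ (9 / 10 : ℝ) := by linarith [(Nat.cast_nonneg M : (0 : ℝ) ≤ M)]
    linarith
  have hMY : M ≤ Y := by
    rw [hY]
    apply Nat.le_floor
    linarith
  have hY0 : (0 : ℝ) < Y := by
    have : 0 < M := by omega
    exact_mod_cast (by omega : 0 < Y)
  have hYT : 2 * Real.pi * T * Y ≤ T ^ 2 := by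
    have e1 : 2 * Real.pi * T ^ (9 / 10 : ℝ) ≤ T := by
      have e2 : T ^ (9 / 10 : ℝ) = T ^ (-(1 / 10) : ℝ) * T := by
        nth_rewrite 3 [← Real.rpow_one T]
        rw [← Real.rpow_add hT0]
        norm_num
      rw [e2, ← mul_assoc]
      calc 2 * Real.pi * T ^ (-(1 / 10) : ℝ) * T ≤ 1 * T := mul_le_mul_of_nonneg_right h4 hT0.le
        _ = T := one_mul T
    have hπ := Real.pi_pos
    calc 2 * Real.pi * T * Y ≤ 2 * Real.pi * T * T ^ (9 / 10 : ℝ) := mul_le_mul_of_nonneg_left hY1 (by positivity)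
      _ = T * (2 * Real.pi * T ^ (9 / 10 : ℝ)) := by ring
      _ ≤ T * T := mul_le_mul_of_nonneg_left e1 hT0.le
      _ = T ^ 2 := by ring
  -- the error terms
  have k1 : Ct * δ ^ (-(3 / 2) : ℝ) * (Y : ℝ) ^ (-(24 / 25) : ℝ) ≤ 2 * Ct * T ^ (-(τ / 2)) := by
    have e1 : (Y : ℝ) ^ (-(24 / 25) : ℝ) ≤ 2 * T ^ (-(108 / 125) : ℝ) := by
      refine (Real.rpow_le_rpow_of_nonpos (by positivity) hY2 (by norm_num)).trans ?_
      rw [div_eq_mul_inv, Real.mul_rpow (by positivity) (by norm_num), ← Real.rpow_mul hT0.le, Real.inv_rpow (by norm_num), ← Real.rpow_neg (by norm_num), neg_neg, mul_comm]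
      have e2 : (9 / 10 * -(24 / 25) : ℝ) = -(108 / 125) := by norm_num
      rw [e2]
      apply mul_le_mul_of_nonneg_right _ (by positivity)
      calc (2 : ℝ) ^ (24 / 25 : ℝ) ≤ 2 ^ (1 : ℝ) := Real.rpow_le_rpow_of_exponent_le (by norm_num) (by norm_num)
        _ = 2 := Real.rpow_one 2
    have e3 : δ ^ (-(3 / 2) : ℝ) = T ^ (3 / 4 + 3 / 2 * τ) := by
      rw [hδ, ← Real.rpow_mul hT0.le]
      congr 1
      ring
    calc Ct * δ ^ (-(3 / 2) : ℝ) * (Y : ℝ) ^ (-(24 / 25) : ℝ) ≤ Ct * T ^ (3 / 4 + 3 / 2 * τ) * (2 * T ^ (-(108 / 125) : ℝ)) := by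
          rw [e3]
          exact mul_le_mul_of_nonneg_left e1 (by positivity)
      _ = 2 * Ct * (T ^ (3 / 4 + 3 / 2 * τ) * T ^ (-(108 / 125) : ℝ)) := by ring
      _ ≤ 2 * Ct * T ^ (-(τ / 2)) := by
          apply mul_le_mul_of_nonneg_left _ (by positivity)
          rw [← Real.rpow_add hT0]
          exact Real.rpow_le_rpow_of_exponent_le g6 (by linarith)
  have k2 : δ ≤ T ^ (-(τ / 2)) := by
    rw [hδ]
    exact Real.rpow_le_rpow_of_exponent_le g6 (by linarith)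
  have k3 : ∀ R : ℝ, c₁ * T ≤ R → R ≤ c₂ * T → erw (τ / 2) R δ ≤ (c₂ ^ (1 / 2 + τ / 2) + c₁ ^ (-(12 / 25) : ℝ) + 1) * T ^ (-(τ / 2)) := by
    intro R hR1 hR2
    have hR0 : 0 < R := by have : 0 < c₁ * T := by positivity
                           linarith
    unfold erw
    have e1 : δ * R ^ (1 / 2 + τ / 2) ≤ c₂ ^ (1 / 2 + τ / 2) * T ^ (-(τ / 2)) := by
      calc δ * R ^ (1 / 2 + τ / 2) ≤ δ * (c₂ * T) ^ (1 / 2 + τ / 2) := by
            apply mul_le_mul_of_nonneg_left _ hδ0.le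
            exact Real.rpow_le_rpow hR0.le hR2 (by linarith)
        _ = c₂ ^ (1 / 2 + τ / 2) * (T ^ (-(1 / 2 + τ)) * T ^ (1 / 2 + τ / 2)) := by
            rw [Real.mul_rpow hc₂.le hT0.le, hδ]
            ring
        _ = c₂ ^ (1 / 2 + τ / 2) * T ^ (-(τ / 2)) := by
            rw [← Real.rpow_add hT0]
            congr 2
            ring
    have e2 : R ^ (-(12 / 25) : ℝ) * δ ^ (-(13 / 25) : ℝ) ≤ c₁ ^ (-(12 / 25) : ℝ) * T ^ (-(τ / 2)) := by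
      calc R ^ (-(12 / 25) : ℝ) * δ ^ (-(13 / 25) : ℝ) ≤ (c₁ * T) ^ (-(12 / 25) : ℝ) * δ ^ (-(13 / 25) : ℝ) := by
            apply mul_le_mul_of_nonneg_right _ (by positivity)
            exact Real.rpow_le_rpow_of_nonpos (by positivity) hR1 (by norm_num)
        _ = c₁ ^ (-(12 / 25) : ℝ) * (T ^ (-(12 / 25) : ℝ) * T ^ (-(1 / 2 + τ) * -(13 / 25))) := by
            rw [Real.mul_rpow hc₁.le hT0.le, hδ, ← Real.rpow_mul hT0.le]
            ring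
        _ ≤ c₁ ^ (-(12 / 25) : ℝ) * T ^ (-(τ / 2)) := by
            apply mul_le_mul_of_nonneg_left _ (by positivity)
            rw [← Real.rpow_add hT0]
            exact Real.rpow_le_rpow_of_exponent_le g6 (by linarith)
    have e3 : δ ^ (2 / 5 : ℝ) ≤ T ^ (-(τ / 2)) := by
      rw [hδ, ← Real.rpow_mul hT0.le]
      exact Real.rpow_le_rpow_of_exponent_le g6 (by linarith)
    linarith
  obtain ⟨t, ht⟩ : ∃ t : ℝ, t = T ^ (-(τ / 2)) := ⟨_, rfl⟩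
  rw [← ht] at k1 k2
  have ht0 : 0 < t := by rw [ht]; positivity
  have ht2 : t ^ 2 = T ^ (-τ) := by
    rw [ht, ← Real.rpow_natCast, ← Real.rpow_mul hT0.le]
    congr 1
    push_cast
    ring
  -- the two sums
  obtain ⟨A₁, hA₁⟩ : ∃ A₁ : ℝ → ℝ, A₁ = fun x => ∑ m ∈ Ioc (M ^ 2) (Y ^ 2), wt a φ w (T * x + κ₁ * δ) δ m := ⟨_, rfl⟩
  obtain ⟨A₂, hA₂⟩ : ∃ A₂ : ℝ → ℝ, A₂ = fun x => ∑ m ∈ Ioc (M ^ 2) (Y ^ 2), wt a φ w (T * x + κ₂ * δ) δ m := ⟨_, rfl⟩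
  have hsplit : ∀ (κ Kκ : ℝ), (∀ R δ : ℝ, 0 < δ → |∑ m ∈ Icc 1 (M ^ 2), wt a φ w (R + κ * δ) δ m - U a φ R M| ≤ Kκ * δ) →
      ∀ x : ℝ, |WS a φ w (T * x + κ * δ) δ - U a φ (T * x) M| ≤
        2 * Ct * t + Kκ * t + |∑ m ∈ Ioc (M ^ 2) (Y ^ 2), wt a φ w (T * x + κ * δ) δ m| := by
    intro κ Kκ hlow x
    have e1 := htail δ hδ0 (T * x + κ * δ) Y (by exact_mod_cast hY0)
    have e2 := hlow (T * x) δ hδ0
    have e3 : ∑ m ∈ Icc 1 (Y ^ 2), wt a φ w (T * x + κ * δ) δ m = ∑ m ∈ Icc 1 (M ^ 2), wt a φ w (T * x + κ * δ) δ m +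
        ∑ m ∈ Ioc (M ^ 2) (Y ^ 2), wt a φ w (T * x + κ * δ) δ m := by
      rw [← sum_union]
      · congr 1
        have : M ^ 2 ≤ Y ^ 2 := Nat.pow_le_pow_left hMY 2
        ext m
        simp only [mem_union, mem_Icc, mem_Ioc]
        omega
      · rw [disjoint_left]
        intro m hm hm'
        rw [mem_Icc] at hm
        rw [mem_Ioc] at hm'
        omega
    have e4 : WS a φ w (T * x + κ * δ) δ - U a φ (T * x) M = (WS a φ w (T * x + κ * δ) δ - ∑ m ∈ Icc 1 (Y ^ 2), wt a φ w (T * x + κ * δ) δ m) +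
        (∑ m ∈ Icc 1 (M ^ 2), wt a φ w (T * x + κ * δ) δ m - U a φ (T * x) M) + ∑ m ∈ Ioc (M ^ 2) (Y ^ 2), wt a φ w (T * x + κ * δ) δ m := by
      rw [e3]; ring
    rw [e4]
    refine (abs_add_le _ _).trans (add_le_add_left ((abs_add_le _ _).trans ?_) _)
    have e5 : 0 ≤ Kκ := by
      have := (abs_nonneg _).trans (hlow 0 1 one_pos)
      linarith
    have e6 : Kκ * δ ≤ Kκ * t := mul_le_mul_of_nonneg_left k2 e5
    linarith
  have hpt : ∀ᵐ x ∂μ, (E (T * x) - U a φ (T * x) M) ^ 2 ≤ 3 * ((A₁ x) ^ 2 + (A₂ x) ^ 2 + (D * t) ^ 2) := by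
    filter_upwards [hμ.supp] with x hx
    have hR1 : c₁ * T ≤ T * x := by nlinarith [hx.1]
    have hR2 : T * x ≤ c₂ * T := by nlinarith [hx.2]
    have hR4 : 4 ≤ T * x := by
      have : 4 ≤ c₁ * T := by
        rw [div_le_iff₀ hc₁] at g7
        linarith
      linarith
    obtain ⟨e1, e2⟩ := hS (T * x) (T * x) δ hR4 hδ0 h3 (by simp [hδ0.le])
    have e3 := hsplit κ₁ K₁ hlow₁ x
    have e4 := hsplit κ₂ K₂ hlow₂ x
    have e5 := k3 (T * x) hR1 hR2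
    rw [← ht] at e5
    have e6 : C0 * erw (τ / 2) (T * x) δ ≤ C0 * ((c₂ ^ (1 / 2 + τ / 2) + c₁ ^ (-(12 / 25) : ℝ) + 1) * t) := mul_le_mul_of_nonneg_left e5 hC0.le
    have hA1x : A₁ x = ∑ m ∈ Ioc (M ^ 2) (Y ^ 2), wt a φ w (T * x + κ₁ * δ) δ m := by rw [hA₁]
    have hA2x : A₂ x = ∑ m ∈ Ioc (M ^ 2) (Y ^ 2), wt a φ w (T * x + κ₂ * δ) δ m := by rw [hA₂]
    rw [← hA1x] at e3
    rw [← hA2x] at e4
    have e7 := abs_le.1 e3
    have e8 := abs_le.1 e4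
    have hDt : D * t = 2 * Ct * t + K₁ * t + K₂ * t + C0 * ((c₂ ^ (1 / 2 + τ / 2) + c₁ ^ (-(12 / 25) : ℝ) + 1) * t) := by
      rw [hD]; ring
    have e9 : 0 ≤ K₁ * t := by positivity
    have e10 : 0 ≤ K₂ * t := by positivity
    have e11 : |E (T * x) - U a φ (T * x) M| ≤ |A₁ x| + |A₂ x| + D * t := by
      rw [abs_le]
      constructor
      · have := abs_nonneg (A₁ x)
        linarith [e8.1]
      · have := abs_nonneg (A₂ x)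
        linarith [e7.2]
    have e12 : 0 ≤ D * t := by positivity
    rw [← sq_abs (E (T * x) - U a φ (T * x) M), ← sq_abs (A₁ x), ← sq_abs (A₂ x)]
    have e13 := pow_le_pow_left₀ (abs_nonneg _) e11 2
    exact e13.trans (sq_three _ _ _)
  have := hμ.prob
  have hint : ∀ κ : ℝ, Integrable (fun x => (∑ m ∈ Ioc (M ^ 2) (Y ^ 2), wt a φ w (T * x + κ * δ) δ m) ^ 2) μ := by
    intro κ
    have hcont : Continuous (fun x : ℝ => (∑ m ∈ Ioc (M ^ 2) (Y ^ 2), wt a φ w (T * x + κ * δ) δ m) ^ 2) :=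
      (continuous_finsetSum _ fun m _ => wt_cont a φ w T κ δ m).pow 2
    refine Integrable.of_bound hcont.aestronglyMeasurable ((∑ m ∈ Ioc (M ^ 2) (Y ^ 2), |a m| * ‖w (√(m : ℝ) * δ)‖) ^ 2) (Eventually.of_forall fun x => ?_)
    rw [Real.norm_eq_abs, abs_of_nonneg (sq_nonneg _), ← sq_abs]
    apply pow_le_pow_left₀ (abs_nonneg _)
    exact (abs_sum_le_sum_abs _ _).trans (sum_le_sum fun m _ => abs_wt_le _ _ m)
  have hi1 : Integrable (fun x => (A₁ x) ^ 2) μ := by rw [hA₁]; exact hint κ₁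
  have hi2 : Integrable (fun x => (A₂ x) ^ 2) μ := by rw [hA₂]; exact hint κ₂
  have hmain := integral_mono_of_nonneg (μ := μ) (f := fun x => (E (T * x) - U a φ (T * x) M) ^ 2)
    (g := fun x => 3 * ((A₁ x) ^ 2 + (A₂ x) ^ 2 + (D * t) ^ 2)) (Eventually.of_forall fun x => sq_nonneg _)
    (((hi1.add hi2).add (integrable_const _)).const_mul 3) hpt
  refine hmain.trans ?_
  have hsumint : ∫ x, 3 * ((A₁ x) ^ 2 + (A₂ x) ^ 2 + (D * t) ^ 2) ∂μ = 3 * (∫ x, (A₁ x) ^ 2 ∂μ + ∫ x, (A₂ x) ^ 2 ∂μ + (D * t) ^ 2) := by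
    rw [integral_const_mul]
    congr 1
    have e1 : ∫ x, ((A₁ x) ^ 2 + (A₂ x) ^ 2 + (D * t) ^ 2) ∂μ = ∫ x, ((A₁ x) ^ 2 + (A₂ x) ^ 2) ∂μ + ∫ _x, (D * t) ^ 2 ∂μ :=
      integral_add (hi1.add hi2) (integrable_const _)
    have e2 : ∫ x, ((A₁ x) ^ 2 + (A₂ x) ^ 2) ∂μ = ∫ x, (A₁ x) ^ 2 ∂μ + ∫ x, (A₂ x) ^ 2 ∂μ := integral_add hi1 hi2
    rw [e1, e2, integral_const]
    simp only [probReal_univ, one_smul]
  rw [hsumint]
  have m1 := hms1 T δ g6 hδ0 μ hμ M Y (by omega) hYT hY1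
  have m2 := hms2 T δ g6 hδ0 μ hμ M Y (by omega) hYT hY1
  have hA1i : ∫ x, (A₁ x) ^ 2 ∂μ ≤ C1 * (Tl M + T ^ (-s) * δ ^ (-ρ)) := by rw [hA₁]; exact m1
  have hA2i : ∫ x, (A₂ x) ^ 2 ∂μ ≤ C2 * (Tl M + T ^ (-s) * δ ^ (-ρ)) := by rw [hA₂]; exact m2
  have hδp : T ^ (-s) * δ ^ (-ρ) ≤ T ^ (-τ) := by
    rw [hδ, ← Real.rpow_mul hT0.le, ← Real.rpow_add hT0]
    apply Real.rpow_le_rpow_of_exponent_le g6
    rw [hρd]
    have e1 : τ * τ ≤ τ * (1 / 200) := mul_le_mul_of_nonneg_left hτ1 hτ0.le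
    have e2 : 0 ≤ τ * s := by positivity
    have e3 : -s + -(1 / 2 + τ) * -(1 - s + 5 * τ) = 1 / 2 - 3 / 2 * s + 7 / 2 * τ - τ * s + 5 * (τ * τ) := by ring
    rw [e3]
    linarith
  have hA1j : ∫ x, (A₁ x) ^ 2 ∂μ ≤ C1 * (Tl M + T ^ (-τ)) := hA1i.trans (mul_le_mul_of_nonneg_left (by linarith) hC1.le)
  have hA2j : ∫ x, (A₂ x) ^ 2 ∂μ ≤ C2 * (Tl M + T ^ (-τ)) := hA2i.trans (mul_le_mul_of_nonneg_left (by linarith) hC2.le)
  rw [mul_pow, ht2]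
  linarith

end Pool.Agent.R461.GC
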