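import Pool.Agent.R461.GC.G3
import Pool.Agent.H383.CircD
import Pool.Agent.H383.GenSq

set_option autoImplicit false

/-! Generic progressions of radii and the second moment of the limit law. -/

namespace Pool.Agent.R461.GC

open MeasureTheory Filter Topology Finset
open Pool.Agent.H383.AP
open Pool.Agent.H383.Gen (U Bd Ap ac ac_re norm_ac U_eq_re rt Ap.mean)

/-- the frequencies -/
noncomputable def frq (m : ℕ) : ℝ := 2 * Real.pi * √(m : ℝ)

/-- the group of the frequencies -/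
noncomputable def Lam : AddSubgroup ℝ := (LinearMap.range (Finsupp.linearCombination ℤ frq)).toAddSubgroup

lemma frq_mem (m : ℕ) : frq m ∈ Lam := ⟨Finsupp.single m 1, by simp⟩

lemma Lam_countable : (Lam : Set ℝ).Countable := Set.countable_range _

/-- a step without resonances -/
lemma generic : ∃ α : ℝ, 0 < α ∧ ∀ θ ∈ Lam, θ ≠ 0 → ∀ k : ℤ, α * θ ≠ 2 * Real.pi * k := by
  obtain ⟨bad, hbad⟩ : ∃ bad : Set ℝ, bad = ⋃ θ ∈ (Lam : Set ℝ), ⋃ k : ℤ, {2 * Real.pi * k / θ} := ⟨_, rfl⟩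
  have hc : bad.Countable := by
    rw [hbad]
    exact Lam_countable.biUnion fun θ _ => Set.countable_iUnion fun k => Set.countable_singleton _
  obtain ⟨α, hα1, hα2⟩ := (hc.dense_compl ℝ).inter_open_nonempty (Set.Ioi 0) isOpen_Ioi ⟨1, Set.mem_Ioi.2 one_pos⟩
  refine ⟨α, hα1, fun θ hθ h0 k hk => hα2 ?_⟩
  rw [hbad]
  simp only [Set.mem_iUnion, Set.mem_singleton_iff]
  exact ⟨θ, hθ, k, by rw [← hk]; field_simp⟩

/-- the model polynomials are trigonometric polynomials -/
lemma U_trigS (a : ℕ → ℝ) (φ : ℝ) (M : ℕ) : (fun x => ((U a φ x M : ℝ) : ℂ)) ∈ TrigS Lam := by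
  have h1 : (fun x => ((U a φ x M : ℝ) : ℂ)) = ∑ m ∈ Icc 1 (M ^ 2),
      ((((a m : ℝ) : ℂ) * Complex.exp (((-φ : ℝ) : ℂ) * Complex.I) / 2) • ch (frq m) +
        (((a m : ℝ) : ℂ) * Complex.exp (((φ : ℝ) : ℂ) * Complex.I) / 2) • ch (-frq m)) := by
    funext x
    rw [Finset.sum_apply]
    unfold U
    push_cast
    apply sum_congr rfl
    intro m _
    simp only [Pi.add_apply, Pi.smul_apply, smul_eq_mul]
    unfold ch frq
    have e1 : Complex.cos (2 * (Real.pi : ℂ) * ((x : ℂ) * ((√(m : ℝ) : ℝ) : ℂ)) - (φ : ℂ)) =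
        (Complex.exp (((-φ : ℝ) : ℂ) * Complex.I) * Complex.exp (((2 * Real.pi * √(m : ℝ) * x : ℝ) : ℂ) * Complex.I) +
          Complex.exp (((φ : ℝ) : ℂ) * Complex.I) * Complex.exp (((-(2 * Real.pi * √(m : ℝ)) * x : ℝ) : ℂ) * Complex.I)) / 2 := by
      rw [Complex.cos, ← Complex.exp_add, ← Complex.exp_add]
      congr 3
      · push_cast; ring
      · push_cast; ring
    rw [e1]
    push_cast
    ring
  rw [h1]
  exact Submodule.sum_mem _ fun m _ => Submodule.add_mem _ (Submodule.smul_mem _ _ (ch_mem (frq_mem m)))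
    (Submodule.smul_mem _ _ (ch_mem (Lam.neg_mem (frq_mem m))))

section step

variable {α : ℝ} (hα0 : 0 < α) (hα : ∀ θ ∈ Lam, θ ≠ 0 → ∀ k : ℤ, α * θ ≠ 2 * Real.pi * k)

include hα0 hα

lemma no_res {m : ℕ} (hm : 1 ≤ m) : ¬ ∃ k : ℤ, α * √(m : ℝ) = k := by
  rintro ⟨k, hk⟩
  have hs : 0 < √(m : ℝ) := Real.sqrt_pos.2 (by exact_mod_cast hm)
  have h0 : frq m ≠ 0 := by
    unfold frq
    have := Real.pi_pos
    positivity
  apply hα (frq m) (frq_mem m) h0 k
  unfold frq
  rw [← hk]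
  ring

lemma no_res_add {m m' : ℕ} (hm : 1 ≤ m) (hm' : 1 ≤ m') : ¬ ∃ k : ℤ, α * √(m : ℝ) + α * √(m' : ℝ) = k := by
  rintro ⟨k, hk⟩
  have hs : 0 < √(m : ℝ) := Real.sqrt_pos.2 (by exact_mod_cast hm)
  have hs' : 0 < √(m' : ℝ) := Real.sqrt_pos.2 (by exact_mod_cast hm')
  have hπ := Real.pi_pos
  have h0 : frq m + frq m' ≠ 0 := by
    unfold frq
    positivity
  apply hα (frq m + frq m') (Lam.add_mem (frq_mem m) (frq_mem m')) h0 k
  unfold frq
  rw [← hk]
  ring

lemma no_res_sub {m m' : ℕ} (h : m ≠ m') : ¬ ∃ k : ℤ, α * √(m : ℝ) + -(α * √(m' : ℝ)) = k := by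
  rintro ⟨k, hk⟩
  have hπ := Real.pi_pos
  have h0 : frq m - frq m' ≠ 0 := by
    unfold frq
    rw [← mul_sub]
    have h1 : √(m : ℝ) - √(m' : ℝ) ≠ 0 := by
      intro h2
      apply h
      have h3 : √(m : ℝ) = √(m' : ℝ) := by linarith
      have h4 : (√(m : ℝ)) ^ 2 = (√(m' : ℝ)) ^ 2 := by rw [h3]
      rw [Real.sq_sqrt (Nat.cast_nonneg _), Real.sq_sqrt (Nat.cast_nonneg _)] at h4
      exact_mod_cast h4
    positivity
  apply hα (frq m - frq m') (Lam.sub_mem (frq_mem m) (frq_mem m')) h0 k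
  unfold frq
  rw [← hk]
  ring

/-- second moment of the model polynomials -/
lemma U_second (a : ℕ → ℝ) (φ X : ℝ) (M : ℕ) : Tendsto (rm (fun n : ℕ => (U a φ (X + n * α) M) ^ 2)) atTop
    (𝓝 (∑ m ∈ Icc 1 (M ^ 2), (a m) ^ 2 / 2)) := by
  obtain ⟨z, hz⟩ : ∃ z : ℕ → ℂ, z = ∑ m ∈ Icc 1 (M ^ 2), ac a φ X m • chr (α * √(m : ℝ)) := ⟨_, rfl⟩
  have hzc : (fun n => (starRingEnd ℂ) (z n)) = ∑ m ∈ Icc 1 (M ^ 2), (starRingEnd ℂ) (ac a φ X m) • chr (-(α * √(m : ℝ))) := by
    funext n
    rw [hz, Finset.sum_apply, Finset.sum_apply, map_sum]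
    apply sum_congr rfl
    intro m _
    simp only [Pi.smul_apply, smul_eq_mul, map_mul]
    rw [chr_conj]
  have h1 : HasMean (z * z) 0 := by
    have h := mean_mul (Icc 1 (M ^ 2)) (Icc 1 (M ^ 2)) (ac a φ X) (fun m => α * √(m : ℝ)) (ac a φ X) (fun m => α * √(m : ℝ))
    rw [← hz] at h
    have e : ∑ i ∈ Icc 1 (M ^ 2), ∑ j ∈ Icc 1 (M ^ 2), ac a φ X i * ac a φ X j * mc (α * √(i : ℝ) + α * √(j : ℝ)) = 0 := by
      apply sum_eq_zero
      intro i hi
      apply sum_eq_zero
      intro j hj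
      rw [mem_Icc] at hi hj
      have : mc (α * √(i : ℝ) + α * √(j : ℝ)) = 0 := by
        unfold mc
        rw [if_neg (no_res_add hα0 hα hi.1 hj.1)]
      rw [this, mul_zero]
    rw [e] at h
    exact h
  have h2 : HasMean (z * (fun n => (starRingEnd ℂ) (z n))) ((∑ m ∈ Icc 1 (M ^ 2), (a m) ^ 2 : ℝ) : ℂ) := by
    rw [hzc]
    have h := mean_mul (Icc 1 (M ^ 2)) (Icc 1 (M ^ 2)) (ac a φ X) (fun m => α * √(m : ℝ)) (fun m => (starRingEnd ℂ) (ac a φ X m)) (fun m => -(α * √(m : ℝ)))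
    rw [← hz] at h
    have e : ∑ i ∈ Icc 1 (M ^ 2), ∑ j ∈ Icc 1 (M ^ 2), ac a φ X i * (starRingEnd ℂ) (ac a φ X j) * mc (α * √(i : ℝ) + -(α * √(j : ℝ))) =
        ((∑ m ∈ Icc 1 (M ^ 2), (a m) ^ 2 : ℝ) : ℂ) := by
      push_cast
      apply sum_congr rfl
      intro i hi
      rw [sum_eq_single i]
      · have : mc (α * √(i : ℝ) + -(α * √(i : ℝ))) = 1 := by
          unfold mc
          rw [if_pos ⟨0, by simp⟩]
        rw [this, mul_one, Complex.mul_conj, Complex.normSq_eq_norm_sq, norm_ac, sq_abs]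
        push_cast
        rfl
      · intro j _ hji
        have : mc (α * √(i : ℝ) + -(α * √(j : ℝ))) = 0 := by
          unfold mc
          rw [if_neg (no_res_sub hα0 hα (fun h => hji h.symm))]
        rw [this, mul_zero]
      · intro hni
        exact absurd hi hni
    rw [e] at h
    exact h
  have h3 : HasMean (fun n => (starRingEnd ℂ) ((z * z) n)) 0 := by
    have h := (Complex.continuous_conj.tendsto (0 : ℂ)).comp h1
    rw [map_zero] at h
    unfold HasMean
    refine h.congr fun N => ?_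
    simp only [Function.comp_apply]
    unfold cm
    rw [map_div₀, map_sum, Complex.conj_natCast]
  have key : HasMean (fun n : ℕ => (((U a φ (X + n * α) M) ^ 2 : ℝ) : ℂ)) ((∑ m ∈ Icc 1 (M ^ 2), (a m) ^ 2 / 2 : ℝ) : ℂ) := by
    have h6 := ((h1.smul (1 / 4)).add (h3.smul (1 / 4))).add (h2.smul (1 / 2))
    convert h6 using 1
    · funext n
      rw [U_eq_re]
      have hzn : ∑ m ∈ Icc 1 (M ^ 2), ac a φ X m * chr (α * √(m : ℝ)) n = z n := by
        rw [hz, Finset.sum_apply]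
        rfl
      rw [hzn]
      simp only [Pi.add_apply, Pi.smul_apply, Pi.mul_apply, smul_eq_mul]
      have hre : ((z n).re : ℂ) = (z n + (starRingEnd ℂ) (z n)) / 2 := by
        rw [Complex.add_conj]
        push_cast
        ring
      push_cast
      rw [hre, map_mul]
      ring
    · push_cast
      rw [← sum_div]
      ring
  unfold HasMean at key
  have e : cm (fun n : ℕ => (((U a φ (X + n * α) M) ^ 2 : ℝ) : ℂ)) = fun N => ((rm (fun n : ℕ => (U a φ (X + n * α) M) ^ 2) N : ℝ) : ℂ) := by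
    funext N
    exact cm_ofReal _ N
  rw [e] at key
  have h7 := (Complex.continuous_re.tendsto _).comp key
  rw [Complex.ofReal_re] at h7
  exact h7

/-- second moment of the limit law -/
theorem second {a : ℕ → ℝ} {φ X : ℝ} {e : ℕ → ℝ} (ha : Bd a) (hA : Ap a φ e α X) {V : ℝ} (hV : Tendsto (rm (fun n => (e n) ^ 2)) atTop (𝓝 V)) :
    HasSum (fun m : ℕ => if 1 ≤ m then (a m) ^ 2 / 2 else 0) V := by
  obtain ⟨A, hA0, hAa⟩ := ha
  have hsumm : Summable (fun m : ℕ => if 1 ≤ m then (a m) ^ 2 / 2 else 0) := by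
    have h1 : Summable (fun m : ℕ => A ^ 2 * (m : ℝ) ^ (-(101 / 100) : ℝ)) := by
      apply Summable.mul_left
      rw [Real.summable_nat_rpow]; norm_num
    apply Summable.of_nonneg_of_le _ _ h1
    · intro m
      split_ifs
      · positivity
      · exact le_rfl
    · intro m
      split_ifs with hm
      · have hm0 : (0 : ℝ) < m := by exact_mod_cast hm
        have hm1 : (1 : ℝ) ≤ m := by exact_mod_cast hm
        have e1 := hAa m hm
        have e3 : (√(m : ℝ)) ^ (-(37 / 25) : ℝ) = (m : ℝ) ^ (-(37 / 50) : ℝ) := by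
          rw [Real.sqrt_eq_rpow, ← Real.rpow_mul hm0.le]
          norm_num
        rw [e3] at e1
        have e4 : (a m) ^ 2 ≤ (A * (m : ℝ) ^ (-(37 / 50) : ℝ)) ^ 2 := by
          rw [← sq_abs]
          exact pow_le_pow_left₀ (abs_nonneg _) e1 2
        have e5 : (A * (m : ℝ) ^ (-(37 / 50) : ℝ)) ^ 2 ≤ A ^ 2 * (m : ℝ) ^ (-(101 / 100) : ℝ) := by
          rw [mul_pow, ← Real.rpow_natCast ((m : ℝ) ^ (-(37 / 50) : ℝ)), ← Real.rpow_mul hm0.le]
          apply mul_le_mul_of_nonneg_left _ (by positivity)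
          exact Real.rpow_le_rpow_of_exponent_le hm1 (by norm_num)
        have : 0 ≤ (a m) ^ 2 := sq_nonneg _
        linarith
      · positivity
  obtain ⟨S, hS⟩ := hsumm
  have hlim : Tendsto (fun M : ℕ => ∑ m ∈ Icc 1 (M ^ 2), (a m) ^ 2 / 2) atTop (𝓝 S) := by
    have h2 := hS.tendsto_sum_nat
    have h3 : Tendsto (fun M : ℕ => M ^ 2 + 1) atTop atTop := by
      apply tendsto_atTop_mono (f := fun M => M) _ tendsto_id
      intro M
      nlinarith
    refine (h2.comp h3).congr ?_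
    intro M
    simp only [Function.comp_apply]
    rw [← sum_filter]
    apply sum_congr _ fun _ _ => rfl
    ext m
    rw [mem_filter, mem_range, mem_Icc]
    omega
  -- comparison
  have hcmp : ∀ (x y : ℕ → ℝ) (t : ℝ), 0 < t → ∀ N, rm (fun n => (x n) ^ 2) N ≤ (1 + t) * rm (fun n => (y n) ^ 2) N + (1 + 1 / t) * rm (fun n => (x n - y n) ^ 2) N := by
    intro x y t ht N
    rw [← rm_mul, ← rm_mul, ← rm_add]
    apply rm_mono
    intro n
    have e1 : (x n) ^ 2 = (y n) ^ 2 + (x n - y n) ^ 2 + 2 * y n * (x n - y n) := by ring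
    have e2 : 2 * y n * (x n - y n) ≤ t * (y n) ^ 2 + 1 / t * (x n - y n) ^ 2 := by
      have e3 : 0 ≤ (t * y n - (x n - y n)) ^ 2 / t := by positivity
      have e4 : (t * y n - (x n - y n)) ^ 2 / t = t * (y n) ^ 2 + 1 / t * (x n - y n) ^ 2 - 2 * y n * (x n - y n) := by
        field_simp
        ring
      linarith
    rw [e1]
    linarith
  have hstep : ∀ t : ℝ, 0 < t → ∀ η : ℝ, 0 < η → V ≤ (1 + t) * S + (1 + 1 / t) * η ∧ S ≤ (1 + t) * V + (1 + 1 / t) * η := by
    intro t ht η hη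
    obtain ⟨M₀, hM₀⟩ := hA η hη
    have hboth : ∀ᶠ M : ℕ in atTop, V ≤ (1 + t) * (∑ m ∈ Icc 1 (M ^ 2), (a m) ^ 2 / 2) + (1 + 1 / t) * η ∧
        (∑ m ∈ Icc 1 (M ^ 2), (a m) ^ 2 / 2) ≤ (1 + t) * V + (1 + 1 / t) * η := by
      filter_upwards [eventually_ge_atTop M₀] with M hM
      obtain ⟨N₀, hN₀⟩ := hM₀ M hM
      have hU := U_second hα0 hα a φ X M
      constructor
      · apply le_of_tendsto_of_tendsto hV ((hU.const_mul (1 + t)).add_const ((1 + 1 / t) * η))
        filter_upwards [eventually_ge_atTop N₀] with N hN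
        refine (hcmp e (fun n => U a φ (X + n * α) M) t ht N).trans ?_
        have := hN₀ N hN
        have h1t : 0 < 1 + 1 / t := by positivity
        nlinarith
      · apply le_of_tendsto_of_tendsto hU ((hV.const_mul (1 + t)).add_const ((1 + 1 / t) * η))
        filter_upwards [eventually_ge_atTop N₀] with N hN
        refine (hcmp (fun n => U a φ (X + n * α) M) e t ht N).trans ?_
        have h5 := hN₀ N hN
        have h6 : rm (fun n => (U a φ (X + n * α) M - e n) ^ 2) N = rm (fun n => (e n - U a φ (X + n * α) M) ^ 2) N := by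
          congr 1
          funext n
          ring
        rw [h6]
        have h1t : 0 < 1 + 1 / t := by positivity
        nlinarith
    constructor
    · exact ge_of_tendsto ((hlim.const_mul (1 + t)).add_const ((1 + 1 / t) * η)) (hboth.mono fun M h => h.1)
    · exact le_of_tendsto hlim (hboth.mono fun M h => h.2)
  have hstep2 : ∀ t : ℝ, 0 < t → V ≤ (1 + t) * S ∧ S ≤ (1 + t) * V := by
    intro t ht
    have h1t : 0 < 1 + 1 / t := by positivity
    constructor
    · apply le_of_forall_pos_le_add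
      intro ε hε
      have := (hstep t ht (ε / (1 + 1 / t)) (by positivity)).1
      rw [mul_div_cancel₀ _ h1t.ne'] at this
      exact this
    · apply le_of_forall_pos_le_add
      intro ε hε
      have := (hstep t ht (ε / (1 + 1 / t)) (by positivity)).2
      rw [mul_div_cancel₀ _ h1t.ne'] at this
      exact this
  have hVS : V = S := by
    apply le_antisymm
    · apply le_of_forall_pos_le_add
      intro ε hε
      have h1 := (hstep2 (ε / (|S| + 1)) (by positivity)).1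
      have h2 : ε / (|S| + 1) * S ≤ ε := by
        rw [div_mul_eq_mul_div, div_le_iff₀ (by positivity)]
        nlinarith [le_abs_self S]
      linarith
    · apply le_of_forall_pos_le_add
      intro ε hε
      have h1 := (hstep2 (ε / (|V| + 1)) (by positivity)).2
      have h2 : ε / (|V| + 1) * V ≤ ε := by
        rw [div_mul_eq_mul_div, div_le_iff₀ (by positivity)]
        nlinarith [le_abs_self V]
      linarith
  rw [hVS]
  exact hS

end step

end Pool.Agent.R461.GC
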