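import Pool.Agent.R461.GC.G4
import Pool.Agent.H383.Full3
import Pool.Agent.H452R2.Win.V8

set_option autoImplicit false

/-! The error term of the circle problem at radii chosen with respect to a measure whose Fourier transform decays. -/

namespace Pool.Agent.R461.GC

open MeasureTheory Filter Topology Finset
open Pool.Agent.H383.AP
open Pool.Agent.H383.Gen (U Bd Ap)
open Pool.Agent.H383.Gauss (En F)
open Pool.Agent.H383.Circ (ag ag_Bd ag_zero wg wg_Wt F_mono Cx En_quad quad_Ap)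
open Pool.Agent.H452R2.Win (Bdw SandW En_SandW ag_Bdw)

lemma F_abs (R : ℝ) : F |R| = F R := by
  unfold F
  simp only [sq_abs]

lemma F_nonneg (R : ℝ) : 0 ≤ F R := by
  unfold F
  positivity

lemma F_meas : Measurable F := by
  have h1 : Monotone (fun R : ℝ => F (max R 0)) := by
    intro R S h
    exact F_mono (le_max_right _ _) (max_le_max_right 0 h)
  have h2 : F = (fun R : ℝ => F (max R 0)) ∘ (fun R : ℝ => |R|) := by
    funext R
    simp only [Function.comp_apply]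
    rw [max_eq_left (abs_nonneg R), F_abs]
  rw [h2]
  exact h1.measurable.comp continuous_abs.measurable

lemma En_meas : Measurable En := by
  unfold En
  exact (F_meas.sub (by fun_prop)).div (by fun_prop)

lemma En_bdd (R₁ R₂ : ℝ) (h1 : 0 < R₁) : ∃ B : ℝ, ∀ R, R₁ ≤ R → R ≤ R₂ → |En R| ≤ B := by
  refine ⟨(F R₂ + Real.pi * R₂ ^ 2) / √R₁, fun R hR1 hR2 => ?_⟩
  have hR0 : 0 < R := by linarith
  have hs1 : 0 < √R₁ := Real.sqrt_pos.2 h1
  have hs : √R₁ ≤ √R := Real.sqrt_le_sqrt hR1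
  have hF : F R ≤ F R₂ := F_mono hR0.le hR2
  have hF0 := F_nonneg R
  have hπ := Real.pi_pos
  have hsq : R ^ 2 ≤ R₂ ^ 2 := pow_le_pow_left₀ hR0.le hR2 2
  unfold En
  rw [abs_div, abs_of_pos (lt_of_lt_of_le hs1 hs)]
  apply div_le_div₀ (by have := F_nonneg R₂; positivity) _ hs1 hs
  rw [abs_le]
  constructor
  · nlinarith [F_nonneg R₂]
  · nlinarith [sq_nonneg R₂, sq_nonneg R]

/-- characters along a progression without resonances -/
lemma emp_ch {α : ℝ} (hα : ∀ θ ∈ Lam, θ ≠ 0 → ∀ k : ℤ, α * θ ≠ 2 * Real.pi * k) {θ : ℝ} (hθ : θ ∈ Lam) (h0 : θ ≠ 0) :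
    Tendsto (fun k => ∫ x, ch θ x ∂(emp (fun n : ℕ => α + n * α) k)) atTop (𝓝 0) := by
  have hπ := Real.pi_pos
  have hnon : ¬ ∃ k : ℤ, θ * α / (2 * Real.pi) = k := by
    rintro ⟨k, hk⟩
    apply hα θ hθ h0 k
    rw [← hk]
    field_simp
  have h1 := (chr_mean_non hnon)
  unfold HasMean at h1
  have h2 := (h1.comp (tendsto_add_atTop_nat 1)).const_mul (Complex.exp (((θ * α : ℝ) : ℂ) * Complex.I))
  rw [mul_zero] at h2
  refine h2.congr fun k => ?_
  rw [emp_integral _ _ _ (ch_cont θ).stronglyMeasurable]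
  simp only [Function.comp_apply]
  unfold cm
  rw [div_eq_inv_mul, ← mul_assoc, mul_comm (Complex.exp _), mul_assoc, mul_sum, Complex.real_smul]
  push_cast
  congr 1
  apply sum_congr rfl
  intro n _
  unfold chr ch
  rw [← Complex.exp_add]
  congr 1
  push_cast
  field_simp

lemma emp_bdd (R : ℕ → ℝ) (E : ℝ → ℝ) (hE : Measurable E) (k : ℕ) : ∃ B : ℝ, ∀ᵐ x ∂(emp R k), |E x| ≤ B := by
  refine ⟨∑ n ∈ range (k + 1), |E (R n)|, ?_⟩
  rw [ae_iff]
  have hm : MeasurableSet {x : ℝ | ¬ |E x| ≤ ∑ n ∈ range (k + 1), |E (R n)|} :=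
    (measurableSet_le hE.abs measurable_const).compl
  unfold emp
  rw [Measure.smul_apply, Measure.coe_finsetSum, Finset.sum_apply]
  have h1 : ∑ n ∈ range (k + 1), (Measure.dirac (R n)) {x : ℝ | ¬ |E x| ≤ ∑ n ∈ range (k + 1), |E (R n)|} = 0 := by
    apply sum_eq_zero
    intro n hn
    rw [Measure.dirac_apply' _ hm, Set.indicator_of_notMem]
    intro h2
    apply h2
    exact single_le_sum (f := fun n => |E (R n)|) (fun i _ => abs_nonneg _) hn
  rw [h1, smul_zero]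

/-- **limit law** for measures with decay -/
theorem fractal : ∃ (ν : ProbabilityMeasure ℝ) (G : ℂ → ℂ),
    Differentiable ℂ G ∧ (∀ x : ℝ, 0 ≤ (G x).re ∧ (G x).im = 0) ∧
    (ν : Measure ℝ) = volume.withDensity (fun x : ℝ => ENNReal.ofReal (G x).re) ∧
    (∀ u v : ℝ, u < v → 0 < (ν : Measure ℝ) (Set.Ioo u v)) ∧
    Integrable (fun x : ℝ => x ^ 2) (ν : Measure ℝ) ∧
    ∫ x, x ∂(ν : Measure ℝ) = 0 ∧
    HasSum (fun m : ℕ => if 1 ≤ m then (ag m) ^ 2 / 2 else 0) (∫ x, x ^ 2 ∂(ν : Measure ℝ)) ∧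
    ∀ c₁ c₂ K s : ℝ, 0 < c₁ → 1 / 3 < s → ∀ f : ℝ → ℝ, Continuous f → (∃ C : ℝ, ∀ x, |f x| ≤ C * (1 + x ^ 2)) → ∀ η : ℝ, 0 < η →
      ∃ T₀ : ℝ, ∀ T, T₀ ≤ T → ∀ μ : Measure ℝ, Adm c₁ c₂ K s T μ → |∫ x, f (En (T * x)) ∂μ - ∫ x, f x ∂(ν : Measure ℝ)| ≤ η := by
  classical
  obtain ⟨α, hα0, hα⟩ := generic
  have hP : ∀ n : ℕ, 0 < α ^ 2 * (n : ℝ) ^ 2 + 2 * α ^ 2 * n + α ^ 2 := fun n => by positivity
  obtain ⟨ν, G, h1, h2, h3, h4, h5, h6, _, _, h8, h9⟩ := Pool.Agent.H383.Circ.distr3 (show 0 < α ^ 2 by positivity) hP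
  have hsq : ∀ n : ℕ, √(α ^ 2 * (n : ℝ) ^ 2 + 2 * α ^ 2 * n + α ^ 2) = α + n * α := by
    intro n
    rw [show α ^ 2 * (n : ℝ) ^ 2 + 2 * α ^ 2 * n + α ^ 2 = (α + n * α) ^ 2 by ring]
    exact Real.sqrt_sq (by positivity)
  have hEn : ∀ n : ℕ, Cx (α ^ 2 * (n : ℝ) ^ 2 + 2 * α ^ 2 * n + α ^ 2) / (α ^ 2 * (n : ℝ) ^ 2 + 2 * α ^ 2 * n + α ^ 2) ^ (1 / 4 : ℝ) = En (α + n * α) := by
    intro n
    rw [← En_quad (hP n).le, hsq]
  have hAp : Ap ag (3 * Real.pi / 4) (fun n : ℕ => En (α + n * α)) α α := by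
    have h := quad_Ap (show 0 < α ^ 2 by positivity) (fun n => (hP n).le)
    simp only [hsq] at h
    have e1 : √(α ^ 2) = α := Real.sqrt_sq hα0.le
    have e2 : 2 * α ^ 2 / (2 * √(α ^ 2)) = α := by
      rw [e1]
      field_simp
    rw [e2, e1] at h
    exact h
  -- the averages along the progression
  have hlim : ∀ f : ℝ → ℝ, Continuous f → (∃ C : ℝ, ∀ x : ℝ, |f x| ≤ C * (1 + x ^ 2)) →
      Tendsto (rm (fun n : ℕ => f (En (α + n * α)))) atTop (𝓝 (∫ x, f x ∂(ν : Measure ℝ))) := by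
    intro f hf hC
    rw [Metric.tendsto_atTop]
    intro ε hε
    obtain ⟨N₀, hN₀⟩ := h6 f hf hC 1 one_pos (ε / 2) (by linarith)
    refine ⟨N₀, fun N hN => ?_⟩
    have h10 := hN₀ N hN 0 (by
      rw [Nat.cast_zero, Real.zero_rpow (by norm_num)]
      exact Nat.cast_nonneg N)
    rw [Real.dist_eq]
    simp only [hEn, zero_add, ← Finset.range_eq_Ico] at h10
    unfold rm
    linarith
  refine ⟨ν, G, h1, h2, h3, h4, h5, ?_, ?_, ?_⟩
  · -- the mean
    rw [h9]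
    refine (tsum_congr (g := fun _ : ℕ => (0 : ℝ)) fun m => ?_).trans tsum_zero
    rw [if_neg]
    rintro ⟨hm, k, hk⟩
    apply no_res hα0 hα hm
    refine ⟨k, ?_⟩
    rw [← hk, Real.sqrt_mul (sq_nonneg α), Real.sqrt_sq hα0.le]
  · -- the second moment
    exact second hα0 hα ag_Bd hAp (hlim (fun x => x ^ 2) (by fun_prop) ⟨1, fun x => by
      rw [abs_of_nonneg (sq_nonneg x)]
      linarith⟩)
  · intro c₁ c₂ K s hc₁ hs f hf hC η hη
    by_contra hcon
    push Not at hcon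
    choose T hT μ hμ hbad using fun k : ℕ => hcon (k + 1 : ℝ)
    obtain ⟨c₂', hc₂'⟩ : ∃ c₂', c₂' = max c₁ c₂ := ⟨_, rfl⟩
    obtain ⟨s', hs'⟩ : ∃ s', s' = min s (2 / 5) := ⟨_, rfl⟩
    have hs'1 : 1 / 3 < s' := by rw [hs']; exact lt_min hs (by norm_num)
    have hs'2 : s' ≤ 2 / 5 := by rw [hs']; exact min_le_right _ _
    have hs'3 : s' ≤ s := by rw [hs']; exact min_le_left _ _
    have hT1 : ∀ k, 1 ≤ T k := fun k => by have := hT k; have : (0 : ℝ) ≤ k := Nat.cast_nonneg k; linarith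
    have hTpos : ∀ k, 0 < T k := fun k => by have := hT1 k; linarith
    have hadm : ∀ k, Adm c₁ c₂' |K| s' (T k) (μ k) := by
      intro k
      refine ⟨(hμ k).prob, ?_, fun t ht htT => ((hμ k).dec t ht htT).trans ?_⟩
      · filter_upwards [(hμ k).supp] with x hx
        exact ⟨hx.1, hx.2.trans (by rw [hc₂']; exact le_max_right _ _)⟩
      · have ht1 : 1 ≤ |t| := le_trans (Real.one_le_rpow (hT1 k) (by norm_num)) ht
        exact mul_le_mul (le_abs_self K) (Real.rpow_le_rpow_of_exponent_le ht1 (by linarith)) (by positivity) (abs_nonneg K)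
    have hprob : ∀ k, IsProbabilityMeasure (μ k) := fun k => (hμ k).prob
    obtain ⟨P, hPd⟩ : ∃ P : ℕ → Measure ℝ, P = fun k => (μ k).map (fun x => T k * x) := ⟨_, rfl⟩
    have hmul : ∀ k, Measurable (fun x : ℝ => T k * x) := fun k => by fun_prop
    have hPp : ∀ k, IsProbabilityMeasure (P k) := fun k => by
      rw [hPd]
      have := hprob k
      exact Measure.isProbabilityMeasure_map (hmul k).aemeasurable
    have hPint : ∀ k, ∀ g : ℝ → ℝ, Measurable g → ∫ x, g x ∂(P k) = ∫ x, g (T k * x) ∂(μ k) := by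
      intro k g hg
      rw [hPd]
      exact integral_map (hmul k).aemeasurable hg.aestronglyMeasurable
    have hPch : ∀ θ ∈ Lam, θ ≠ 0 → Tendsto (fun k => ∫ x, ch θ x ∂(P k)) atTop (𝓝 0) := by
      intro θ _ h0
      have hTt : Tendsto T atTop atTop := tendsto_atTop_mono (fun k => (by linarith [hT k] : (k : ℝ) ≤ T k)) tendsto_natCast_atTop_atTop
      have hlim2 : Tendsto (fun k => |K| * (|θ| ^ (-s') * (T k) ^ (-s'))) atTop (𝓝 0) := by
        have e1 := ((tendsto_rpow_neg_atTop (show (0 : ℝ) < s' by linarith)).comp hTt).const_mul (|θ| ^ (-s'))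
        have e2 := e1.const_mul |K|
        simpa using e2
      apply squeeze_zero_norm' _ hlim2
      have hθ0 : 0 < |θ| := abs_pos.2 h0
      filter_upwards [hTt.eventually_ge_atTop |θ|, ((tendsto_rpow_atTop (show (0 : ℝ) < 9 / 10 by norm_num)).comp hTt).eventually_ge_atTop |θ|⁻¹] with k hk hk2
      have e1 : ∫ x, ch θ x ∂(P k) = ∫ x, ch (θ * T k) x ∂(μ k) := by
        rw [hPd]
        simp only
        rw [integral_map (hmul k).aemeasurable (ch_cont θ).aestronglyMeasurable]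
        congr 1
        funext x
        unfold ch
        congr 3
        ring
      rw [e1]
      have hθT : |θ * T k| = |θ| * T k := by rw [abs_mul, abs_of_pos (hTpos k)]
      have e2 := (hadm k).dec (θ * T k) (by
        rw [hθT]
        have e3 : T k = (T k) ^ (9 / 10 : ℝ) * (T k) ^ (1 / 10 : ℝ) := by
          rw [← Real.rpow_add (hTpos k)]
          norm_num
        have e4 : 1 ≤ |θ| * (T k) ^ (9 / 10 : ℝ) := by
          have := mul_le_mul_of_nonneg_left hk2 hθ0.le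
          rwa [mul_inv_cancel₀ hθ0.ne'] at this
        calc (T k) ^ (1 / 10 : ℝ) = 1 * (T k) ^ (1 / 10 : ℝ) := (one_mul _).symm
          _ ≤ (|θ| * (T k) ^ (9 / 10 : ℝ)) * (T k) ^ (1 / 10 : ℝ) := mul_le_mul_of_nonneg_right e4 (by have := hTpos k; positivity)
          _ = |θ| * T k := by rw [mul_assoc, ← e3]) (by
        rw [hθT, pow_two]
        exact mul_le_mul_of_nonneg_right hk (hTpos k).le)
      rw [hθT, Real.mul_rpow (abs_nonneg _) (hTpos k).le] at e2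
      exact e2
    have hQch : ∀ θ ∈ Lam, θ ≠ 0 → Tendsto (fun k => ∫ x, ch θ x ∂(emp (fun n : ℕ => α + n * α) k)) atTop (𝓝 0) :=
      fun θ hθ h0 => emp_ch hα hθ h0
    have hUm : ∀ M, Measurable (fun x => U ag (3 * Real.pi / 4) x M) := fun M => by
      have := Complex.continuous_re.comp (TrigS_cont (U_trigS ag (3 * Real.pi / 4) M)).1
      exact Continuous.measurable this
    have hPb : ∀ k, ∃ B, ∀ᵐ x ∂(P k), |En x| ≤ B := by
      intro k
      obtain ⟨B, hB⟩ := En_bdd (c₁ * T k) (c₂' * T k) (mul_pos hc₁ (hTpos k))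
      refine ⟨B, ?_⟩
      rw [hPd]
      simp only
      rw [ae_map_iff (hmul k).aemeasurable (measurableSet_le En_meas.abs measurable_const)]
      filter_upwards [(hadm k).supp] with x hx
      apply hB
      · nlinarith [hx.1, hTpos k]
      · nlinarith [hx.2, hTpos k]
    have hPu : ∀ η : ℝ, 0 < η → ∃ M₀ : ℕ, ∀ M, M₀ ≤ M → ∃ k₀ : ℕ, ∀ k, k₀ ≤ k → ∫ x, (En x - U ag (3 * Real.pi / 4) x M) ^ 2 ∂(P k) ≤ η := by
      intro η hη
      obtain ⟨M₀, hM₀⟩ := tail_conv (c₁ := c₁) (c₂ := c₂') (K := |K|) (s := s') ag_Bdw ag_zero wg_Wt En_SandW hc₁ (by rw [hc₂']; exact le_max_left _ _) (abs_nonneg K) hs'1 hs'2 η hη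
      refine ⟨M₀, fun M hM => ?_⟩
      obtain ⟨T₀, hT₀⟩ := hM₀ M hM
      obtain ⟨k₀, hk₀⟩ := exists_nat_ge T₀
      refine ⟨k₀, fun k hk => ?_⟩
      rw [hPint k (fun x => (En x - U ag (3 * Real.pi / 4) x M) ^ 2) ((En_meas.sub (hUm M)).pow_const 2)]
      apply hT₀ (T k) _ (μ k) (hadm k)
      have e1 := hT k
      have e2 : (k₀ : ℝ) ≤ k := by exact_mod_cast hk
      linarith
    have hQu : ∀ η : ℝ, 0 < η → ∃ M₀ : ℕ, ∀ M, M₀ ≤ M → ∃ k₀ : ℕ, ∀ k, k₀ ≤ k →
        ∫ x, (En x - U ag (3 * Real.pi / 4) x M) ^ 2 ∂(emp (fun n : ℕ => α + n * α) k) ≤ η := by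
      intro η hη
      obtain ⟨M₀, hM₀⟩ := hAp η hη
      refine ⟨M₀, fun M hM => ?_⟩
      obtain ⟨N₀, hN₀⟩ := hM₀ M hM
      refine ⟨N₀, fun k hk => ?_⟩
      have e0 : Measurable (fun x : ℝ => (En x - U ag (3 * Real.pi / 4) x M) ^ 2) := (En_meas.sub (hUm M)).pow_const 2
      rw [emp_integral _ _ _ e0.stronglyMeasurable]
      have e1 := hN₀ (k + 1) (by omega)
      unfold rm at e1
      rw [smul_eq_mul, ← div_eq_inv_mul]
      exact e1
    obtain ⟨k₀, hk₀⟩ := compare (P := P) (Q := emp (fun n : ℕ => α + n * α)) hPch hQch En_meas hPb (fun k => emp_bdd _ _ En_meas k)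
      (u := fun M x => U ag (3 * Real.pi / 4) x M) (fun M => U_trigS ag (3 * Real.pi / 4) M) hPu hQu hf hC (show 0 < η / 2 by linarith)
    have hL := hlim f hf hC
    rw [Metric.tendsto_atTop] at hL
    obtain ⟨N₁, hN₁⟩ := hL (η / 2) (by linarith)
    have f1 := hk₀ (k₀ + N₁) (by omega)
    have f2 := hN₁ (k₀ + N₁ + 1) (by omega)
    have f3 := hbad (k₀ + N₁)
    have e0 : Measurable (fun x : ℝ => f (En x)) := hf.measurable.comp En_meas
    rw [hPint (k₀ + N₁) (fun x => f (En x)) e0, emp_integral _ _ _ e0.stronglyMeasurable,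
      smul_eq_mul, ← div_eq_inv_mul] at f1
    unfold rm at f2
    rw [Real.dist_eq] at f2
    have g1 := abs_le.1 f1
    have g2 := abs_lt.1 f2
    have g3 : |∫ x, f (En (T (k₀ + N₁) * x)) ∂(μ (k₀ + N₁)) - ∫ x, f x ∂(ν : Measure ℝ)| ≤ η := by
      rw [abs_le]
      constructor <;> linarith [g1.1, g1.2, g2.1, g2.2]
    linarith

end Pool.Agent.R461.GC
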