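import Pool.Agent.R461.GC.G5

set_option autoImplicit false

/-! Almost everywhere bounds for the error term of the circle problem along sequences of dilations. -/

namespace Pool.Agent.R461.GC

open MeasureTheory Filter Topology Finset
open Pool.Agent.H383.Gauss (En F)

/-- Chebyshev and Borel-Cantelli -/
theorem ae_bound {c₁ c₂ V : ℝ} (hc₁ : 0 < c₁) (μ : Measure ℝ) [IsProbabilityMeasure μ] (hsupp : ∀ᵐ x ∂μ, c₁ ≤ x ∧ x ≤ c₂)
    (T₀ : ℝ) (hV : ∀ T, T₀ ≤ T → ∫ x, (En (T * x)) ^ 2 ∂μ ≤ V) {ε : ℝ} (hε : 0 < ε) (T : ℕ → ℝ) (hT : ∀ k, 0 < T k)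
    (hs : Summable (fun k => (T k) ^ (-(2 * ε)))) :
    ∀ᵐ x ∂μ, ∀ᶠ k in atTop, |F (T k * x) - Real.pi * (T k * x) ^ 2| ≤ (T k * x) ^ (1 / 2 + ε) := by
  -- the dilations tend to infinity
  have hlarge : ∀ᶠ k in atTop, T₀ ≤ T k := by
    have h1 := hs.tendsto_atTop_zero
    have h2 : 0 < (max T₀ 1) ^ (-(2 * ε)) := by positivity
    filter_upwards [h1.eventually (gt_mem_nhds h2)] with k hk
    by_contra hcon
    push Not at hcon
    have h3 : (max T₀ 1) ^ (-(2 * ε)) ≤ (T k) ^ (-(2 * ε)) :=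
      Real.rpow_le_rpow_of_nonpos (hT k) (hcon.le.trans (le_max_left _ _)) (by linarith)
    linarith
  obtain ⟨k₀, hk₀⟩ := Filter.eventually_atTop.1 hlarge
  have hV0 : 0 ≤ V := (integral_nonneg fun x => sq_nonneg _).trans (hV (max T₀ (T k₀)) (le_max_left _ _))
  -- the exceptional sets
  obtain ⟨B, hB⟩ : ∃ B : ℕ → Set ℝ, B = fun k => {x : ℝ | (c₁ * T (k + k₀)) ^ (2 * ε) ≤ (En (T (k + k₀) * x)) ^ 2} := ⟨_, rfl⟩
  have hmeas : ∀ k, μ.real (B k) ≤ V * c₁ ^ (-(2 * ε)) * (T (k + k₀)) ^ (-(2 * ε)) := by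
    intro k
    have hTk := hT (k + k₀)
    have hint : Integrable (fun x => (En (T (k + k₀) * x)) ^ 2) μ := by
      obtain ⟨D, hD⟩ := En_bdd (c₁ * T (k + k₀)) (c₂ * T (k + k₀)) (mul_pos hc₁ hTk)
      have hm : Measurable (fun x => (En (T (k + k₀) * x)) ^ 2) := (En_meas.comp (by fun_prop)).pow_const 2
      refine Integrable.of_bound hm.aestronglyMeasurable (D ^ 2) ?_
      filter_upwards [hsupp] with x hx
      rw [Real.norm_eq_abs, abs_of_nonneg (sq_nonneg _), ← sq_abs]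
      apply pow_le_pow_left₀ (abs_nonneg _)
      apply hD
      · nlinarith [hx.1]
      · nlinarith [hx.2]
    have h1 := mul_meas_ge_le_integral_of_nonneg (μ := μ) (f := fun x => (En (T (k + k₀) * x)) ^ 2)
      (Eventually.of_forall fun x => sq_nonneg _) hint ((c₁ * T (k + k₀)) ^ (2 * ε))
    have h2 := hV (T (k + k₀)) (hk₀ _ (by omega))
    have h3 : 0 < (c₁ * T (k + k₀)) ^ (2 * ε) := by positivity
    have h4 : (c₁ * T (k + k₀)) ^ (2 * ε) * μ.real (B k) ≤ V := by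
      rw [hB]
      exact h1.trans h2
    have h5 : c₁ ^ (-(2 * ε)) * (T (k + k₀)) ^ (-(2 * ε)) = ((c₁ * T (k + k₀)) ^ (2 * ε))⁻¹ := by
      rw [← Real.mul_rpow hc₁.le hTk.le, Real.rpow_neg (by positivity)]
    rw [mul_assoc, h5, ← div_eq_mul_inv, le_div_iff₀ h3, mul_comm]
    exact h4
  have hsum : ∑' k, μ (B k) ≠ ⊤ := by
    have h1 : Summable (fun k => V * c₁ ^ (-(2 * ε)) * (T (k + k₀)) ^ (-(2 * ε))) :=
      ((summable_nat_add_iff k₀).2 hs).mul_left _
    have h2 : Summable (fun k => μ.real (B k)) := Summable.of_nonneg_of_le (fun k => measureReal_nonneg) hmeas h1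
    have h3 : ∀ k, μ (B k) = ENNReal.ofReal (μ.real (B k)) := fun k => by
      rw [Measure.real, ENNReal.ofReal_toReal (measure_ne_top μ _)]
    simp_rw [h3]
    rw [← ENNReal.ofReal_tsum_of_nonneg (fun k => measureReal_nonneg) h2]
    exact ENNReal.ofReal_ne_top
  filter_upwards [ae_eventually_notMem hsum, hsupp] with x hx hxs
  obtain ⟨k₁, hk₁⟩ := Filter.eventually_atTop.1 hx
  rw [Filter.eventually_atTop]
  refine ⟨k₁ + k₀, fun k hk => ?_⟩
  have h1 := hk₁ (k - k₀) (by omega)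
  rw [hB] at h1
  simp only [Set.mem_ofPred_eq, not_le] at h1
  rw [show k - k₀ + k₀ = k by omega] at h1
  have hx0 : 0 < x := by linarith [hxs.1]
  have hR : 0 < T k * x := mul_pos (hT k) hx0
  have hsR : 0 < √(T k * x) := Real.sqrt_pos.2 hR
  have h2 : (En (T k * x)) ^ 2 ≤ ((T k * x) ^ ε) ^ 2 := by
    have h3 : (c₁ * T k) ^ (2 * ε) ≤ (T k * x) ^ (2 * ε) := by
      apply Real.rpow_le_rpow (mul_pos hc₁ (hT k)).le _ (by linarith)
      nlinarith [hxs.1, hT k]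
    have h4 : ((T k * x) ^ ε) ^ 2 = (T k * x) ^ (2 * ε) := by
      rw [← Real.rpow_natCast, ← Real.rpow_mul hR.le, mul_comm ε]
      norm_num
    rw [h4]
    linarith
  have h3 := abs_le_of_sq_le_sq h2 (by positivity)
  unfold En at h3
  rw [abs_div, abs_of_pos hsR, div_le_iff₀ hsR] at h3
  refine h3.trans (le_of_eq ?_)
  rw [Real.sqrt_eq_rpow, ← Real.rpow_add hR, add_comm]

end Pool.Agent.R461.GC
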