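import Pool.Agent.R461.GC.G5

set_option autoImplicit false

/-! The limit law for all measures with decay, for the error terms of the general interface. -/

namespace Pool.Agent.R461.GC

open MeasureTheory Filter Topology Finset
open Pool.Agent.H383.AP
open Pool.Agent.H383.Gen (U Bd Ap rt)
open Pool.Agent.H383.GW (Wt)
open Pool.Agent.H452R2.Win (Bdw SandW)

variable {E : ℝ → ℝ} {a : ℕ → ℝ} {φ κ₁ κ₂ : ℝ} {w : ℝ → ℂ}

/-- from the averages along a progression without resonances to all measures with decay -/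
theorem unif0 (haE : Bdw a) (ha0 : a 0 = 0) (hw : Wt w) (hS : SandW E a φ w κ₁ κ₂) (hEm : Measurable E)
    (hEb : ∀ R₁ R₂ : ℝ, 0 < R₁ → ∃ B : ℝ, ∀ R, R₁ ≤ R → R ≤ R₂ → |E R| ≤ B) {α : ℝ} (hα0 : 0 < α)
    (hα : ∀ θ ∈ Lam, θ ≠ 0 → ∀ k : ℤ, α * θ ≠ 2 * Real.pi * k) (ν : Measure ℝ)
    (hlim : ∀ f : ℝ → ℝ, Continuous f → (∃ C : ℝ, ∀ x : ℝ, |f x| ≤ C * (1 + x ^ 2)) →
      Tendsto (rm (fun n : ℕ => f (E (α + n * α)))) atTop (𝓝 (∫ x, f x ∂ν)))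
    (c₁ c₂ K s : ℝ) (hc₁ : 0 < c₁) (hs : 1 / 3 < s) (f : ℝ → ℝ) (hf : Continuous f) (hC : ∃ C : ℝ, ∀ x, |f x| ≤ C * (1 + x ^ 2))
    (η : ℝ) (hη : 0 < η) :
    ∃ T₀ : ℝ, ∀ T, T₀ ≤ T → ∀ μ : Measure ℝ, Adm c₁ c₂ K s T μ → |∫ x, f (E (T * x)) ∂μ - ∫ x, f x ∂ν| ≤ η := by
  classical
  have hAp : Ap a φ (fun n : ℕ => E (α + n * α)) α α := by
    obtain ⟨C0, hC0, hS'⟩ := hS.sand
    exact Pool.Agent.H383.GW.ap_of haE.Bd ha0 hw hC0 hS' hα0 α (Rn := fun n : ℕ => α + n * α) ⟨0, fun n => by simp⟩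
  by_contra hcon
  push Not at hcon
  choose T hT μ hμ hbad using fun k : ℕ => hcon (k + 1 : ℝ)
  obtain ⟨c₂', hc₂'⟩ : ∃ c₂', c₂' = max c₁ c₂ := ⟨_, rfl⟩
  obtain ⟨s', hs'⟩ : ∃ s', s' = min s (2 / 5) := ⟨_, rfl⟩
  have hs'1 : 1 / 3 < s' := by rw [hs']; exact lt_min hs (by norm_num)
  have hs'2 : s' ≤ 2 / 5 := by rw [hs']; exact min_le_right _ _
  have hs'3 : s' ≤ s := by rw [hs']; exact min_le_left _ _
  have hT1 : ∀ k, 1 ≤ T k := fun k => by have := hT k; have : (0 : ℝ) ≤ k := Nat.cast_nonneg k; linarith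
  have hTpos : ∀ k, 0 < T k := fun k => by have := hT1 k; linarith
  have hadm : ∀ k, Adm c₁ c₂' |K| s' (T k) (μ k) := by
    intro k
    refine ⟨(hμ k).prob, ?_, fun t ht htT => ((hμ k).dec t ht htT).trans ?_⟩
    · filter_upwards [(hμ k).supp] with x hx
      exact ⟨hx.1, hx.2.trans (by rw [hc₂']; exact le_max_right _ _)⟩
    · have ht1 : 1 ≤ |t| := le_trans (Real.one_le_rpow (hT1 k) (by norm_num)) ht
      exact mul_le_mul (le_abs_self K) (Real.rpow_le_rpow_of_exponent_le ht1 (by linarith)) (by positivity) (abs_nonneg K)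
  have hprob : ∀ k, IsProbabilityMeasure (μ k) := fun k => (hμ k).prob
  obtain ⟨P, hPd⟩ : ∃ P : ℕ → Measure ℝ, P = fun k => (μ k).map (fun x => T k * x) := ⟨_, rfl⟩
  have hmul : ∀ k, Measurable (fun x : ℝ => T k * x) := fun k => by fun_prop
  have hPp : ∀ k, IsProbabilityMeasure (P k) := fun k => by
    rw [hPd]
    have := hprob k
    exact Measure.isProbabilityMeasure_map (hmul k).aemeasurable
  have hPint : ∀ k, ∀ g : ℝ → ℝ, Measurable g → ∫ x, g x ∂(P k) = ∫ x, g (T k * x) ∂(μ k) := by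
    intro k g hg
    rw [hPd]
    exact integral_map (hmul k).aemeasurable hg.aestronglyMeasurable
  have hPch : ∀ θ ∈ Lam, θ ≠ 0 → Tendsto (fun k => ∫ x, ch θ x ∂(P k)) atTop (𝓝 0) := by
    intro θ _ h0
    have hTt : Tendsto T atTop atTop := tendsto_atTop_mono (fun k => (by linarith [hT k] : (k : ℝ) ≤ T k)) tendsto_natCast_atTop_atTop
    have hlim2 : Tendsto (fun k => |K| * (|θ| ^ (-s') * (T k) ^ (-s'))) atTop (𝓝 0) := by
      have e1 := ((tendsto_rpow_neg_atTop (show (0 : ℝ) < s' by linarith)).comp hTt).const_mul (|θ| ^ (-s'))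
      have e2 := e1.const_mul |K|
      simpa using e2
    apply squeeze_zero_norm' _ hlim2
    have hθ0 : 0 < |θ| := abs_pos.2 h0
    filter_upwards [hTt.eventually_ge_atTop |θ|, ((tendsto_rpow_atTop (show (0 : ℝ) < 9 / 10 by norm_num)).comp hTt).eventually_ge_atTop |θ|⁻¹] with k hk hk2
    have e1 : ∫ x, ch θ x ∂(P k) = ∫ x, ch (θ * T k) x ∂(μ k) := by
      rw [hPd]
      simp only
      rw [integral_map (hmul k).aemeasurable (ch_cont θ).aestronglyMeasurable]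
      congr 1
      funext x
      unfold ch
      congr 3
      ring
    rw [e1]
    have hθT : |θ * T k| = |θ| * T k := by rw [abs_mul, abs_of_pos (hTpos k)]
    have e2 := (hadm k).dec (θ * T k) (by
      rw [hθT]
      have e3 : T k = (T k) ^ (9 / 10 : ℝ) * (T k) ^ (1 / 10 : ℝ) := by
        rw [← Real.rpow_add (hTpos k)]
        norm_num
      have e4 : 1 ≤ |θ| * (T k) ^ (9 / 10 : ℝ) := by
        have := mul_le_mul_of_nonneg_left hk2 hθ0.le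
        rwa [mul_inv_cancel₀ hθ0.ne'] at this
      calc (T k) ^ (1 / 10 : ℝ) = 1 * (T k) ^ (1 / 10 : ℝ) := (one_mul _).symm
        _ ≤ (|θ| * (T k) ^ (9 / 10 : ℝ)) * (T k) ^ (1 / 10 : ℝ) := mul_le_mul_of_nonneg_right e4 (by have := hTpos k; positivity)
        _ = |θ| * T k := by rw [mul_assoc, ← e3]) (by
      rw [hθT, pow_two]
      exact mul_le_mul_of_nonneg_right hk (hTpos k).le)
    rw [hθT, Real.mul_rpow (abs_nonneg _) (hTpos k).le] at e2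
    exact e2
  have hQch : ∀ θ ∈ Lam, θ ≠ 0 → Tendsto (fun k => ∫ x, ch θ x ∂(emp (fun n : ℕ => α + n * α) k)) atTop (𝓝 0) :=
    fun θ hθ h0 => emp_ch hα hθ h0
  have hUm : ∀ M, Measurable (fun x => U a φ x M) := fun M => by
    have := Complex.continuous_re.comp (TrigS_cont (U_trigS a φ M)).1
    exact Continuous.measurable this
  have hPb : ∀ k, ∃ B, ∀ᵐ x ∂(P k), |E x| ≤ B := by
    intro k
    obtain ⟨B, hB⟩ := hEb (c₁ * T k) (c₂' * T k) (mul_pos hc₁ (hTpos k))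
    refine ⟨B, ?_⟩
    rw [hPd]
    simp only
    rw [ae_map_iff (hmul k).aemeasurable (measurableSet_le hEm.abs measurable_const)]
    filter_upwards [(hadm k).supp] with x hx
    apply hB
    · nlinarith [hx.1, hTpos k]
    · nlinarith [hx.2, hTpos k]
  have hPu : ∀ η : ℝ, 0 < η → ∃ M₀ : ℕ, ∀ M, M₀ ≤ M → ∃ k₀ : ℕ, ∀ k, k₀ ≤ k → ∫ x, (E x - U a φ x M) ^ 2 ∂(P k) ≤ η := by
    intro η hη
    obtain ⟨M₀, hM₀⟩ := tail_conv (c₁ := c₁) (c₂ := c₂') (K := |K|) (s := s') haE ha0 hw hS hc₁ (by rw [hc₂']; exact le_max_left _ _) (abs_nonneg K) hs'1 hs'2 η hη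
    refine ⟨M₀, fun M hM => ?_⟩
    obtain ⟨T₀, hT₀⟩ := hM₀ M hM
    obtain ⟨k₀, hk₀⟩ := exists_nat_ge T₀
    refine ⟨k₀, fun k hk => ?_⟩
    rw [hPint k (fun x => (E x - U a φ x M) ^ 2) ((hEm.sub (hUm M)).pow_const 2)]
    apply hT₀ (T k) _ (μ k) (hadm k)
    have e1 := hT k
    have e2 : (k₀ : ℝ) ≤ k := by exact_mod_cast hk
    linarith
  have hQu : ∀ η : ℝ, 0 < η → ∃ M₀ : ℕ, ∀ M, M₀ ≤ M → ∃ k₀ : ℕ, ∀ k, k₀ ≤ k →
      ∫ x, (E x - U a φ x M) ^ 2 ∂(emp (fun n : ℕ => α + n * α) k) ≤ η := by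
    intro η hη
    obtain ⟨M₀, hM₀⟩ := hAp η hη
    refine ⟨M₀, fun M hM => ?_⟩
    obtain ⟨N₀, hN₀⟩ := hM₀ M hM
    refine ⟨N₀, fun k hk => ?_⟩
    have e0 : Measurable (fun x : ℝ => (E x - U a φ x M) ^ 2) := (hEm.sub (hUm M)).pow_const 2
    rw [emp_integral _ _ _ e0.stronglyMeasurable]
    have e1 := hN₀ (k + 1) (by omega)
    unfold rm at e1
    rw [smul_eq_mul, ← div_eq_inv_mul]
    exact e1
  obtain ⟨k₀, hk₀⟩ := compare (P := P) (Q := emp (fun n : ℕ => α + n * α)) hPch hQch hEm hPb (fun k => emp_bdd _ _ hEm k)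
    (u := fun M x => U a φ x M) (fun M => U_trigS a φ M) hPu hQu hf hC (show 0 < η / 2 by linarith)
  have hL := hlim f hf hC
  rw [Metric.tendsto_atTop] at hL
  obtain ⟨N₁, hN₁⟩ := hL (η / 2) (by linarith)
  have f1 := hk₀ (k₀ + N₁) (by omega)
  have f2 := hN₁ (k₀ + N₁ + 1) (by omega)
  have f3 := hbad (k₀ + N₁)
  have e0 : Measurable (fun x : ℝ => f (E x)) := hf.measurable.comp hEm
  rw [hPint (k₀ + N₁) (fun x => f (E x)) e0, emp_integral _ _ _ e0.stronglyMeasurable,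
    smul_eq_mul, ← div_eq_inv_mul] at f1
  unfold rm at f2
  rw [Real.dist_eq] at f2
  have g1 := abs_le.1 f1
  have g2 := abs_lt.1 f2
  have g3 : |∫ x, f (E (T (k₀ + N₁) * x)) ∂(μ (k₀ + N₁)) - ∫ x, f x ∂ν| ≤ η := by
    rw [abs_le]
    constructor <;> linarith [g1.1, g1.2, g2.1, g2.2]
  linarith

/-- the same with a change of scale -/
theorem unif (haE : Bdw a) (ha0 : a 0 = 0) (hw : Wt w) (hS : SandW E a φ w κ₁ κ₂) (hEm : Measurable E)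
    (hEb : ∀ R₁ R₂ : ℝ, 0 < R₁ → ∃ B : ℝ, ∀ R, R₁ ≤ R → R ≤ R₂ → |E R| ≤ B) {α : ℝ} (hα0 : 0 < α)
    (hα : ∀ θ ∈ Lam, θ ≠ 0 → ∀ k : ℤ, α * θ ≠ 2 * Real.pi * k) (ν : Measure ℝ)
    (hlim : ∀ f : ℝ → ℝ, Continuous f → (∃ C : ℝ, ∀ x : ℝ, |f x| ≤ C * (1 + x ^ 2)) →
      Tendsto (rm (fun n : ℕ => f (E (α + n * α)))) atTop (𝓝 (∫ x, f x ∂ν))) {c : ℝ} (hc : 0 < c)
    (c₁ c₂ K s : ℝ) (hc₁ : 0 < c₁) (hs : 1 / 3 < s) (f : ℝ → ℝ) (hf : Continuous f) (hC : ∃ C : ℝ, ∀ x, |f x| ≤ C * (1 + x ^ 2))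
    (η : ℝ) (hη : 0 < η) :
    ∃ T₀ : ℝ, ∀ T, T₀ ≤ T → ∀ μ : Measure ℝ, IsProbabilityMeasure μ → (∀ᵐ x ∂μ, c₁ ≤ x ∧ x ≤ c₂) →
      (∀ t : ℝ, T ^ (1 / 20 : ℝ) ≤ |t| → ‖∫ x, Complex.exp (((t * x : ℝ) : ℂ) * Complex.I) ∂μ‖ ≤ K * |t| ^ (-s)) →
      |∫ x, f (E (c * (T * x))) ∂μ - ∫ x, f x ∂ν| ≤ η := by
  obtain ⟨T₀, hT₀⟩ := unif0 haE ha0 hw hS hEm hEb hα0 hα ν hlim (c * c₁) (c * c₂) (K * c ^ (-s)) s (mul_pos hc hc₁) hs f hf hC η hη
  obtain ⟨T₁, hT₁⟩ := pow_small (1 / 20) (by norm_num) hc 1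
  refine ⟨max (max T₀ T₁) 1, fun T hT μ hμ hsupp hdec => ?_⟩
  have g0 : T₀ ≤ T := le_trans (le_trans (le_max_left _ _) (le_max_left _ _)) hT
  have g1 : T₁ ≤ T := le_trans (le_trans (le_max_right _ _) (le_max_left _ _)) hT
  have g2 : 1 ≤ T := le_trans (le_max_right _ _) hT
  have hTpos : 0 < T := by linarith
  have hm : Measurable (fun x : ℝ => c * x) := by fun_prop
  have hcT : T ^ (1 / 20 : ℝ) ≤ c * T ^ (1 / 10 : ℝ) := by
    have e1 := hT₁ T g1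
    rw [one_mul] at e1
    calc T ^ (1 / 20 : ℝ) = T ^ (-(1 / 20) : ℝ) * T ^ (1 / 10 : ℝ) := by
          rw [← Real.rpow_add hTpos]
          norm_num
      _ ≤ c * T ^ (1 / 10 : ℝ) := mul_le_mul_of_nonneg_right e1 (by positivity)
  have hadm : Adm (c * c₁) (c * c₂) (K * c ^ (-s)) s T (μ.map (fun x => c * x)) := by
    refine ⟨Measure.isProbabilityMeasure_map hm.aemeasurable, ?_, fun t ht _ => ?_⟩
    · rw [ae_map_iff hm.aemeasurable (by measurability)]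
      filter_upwards [hsupp] with x hx
      exact ⟨mul_le_mul_of_nonneg_left hx.1 hc.le, mul_le_mul_of_nonneg_left hx.2 hc.le⟩
    · rw [integral_map hm.aemeasurable (ch_cont t).aestronglyMeasurable]
      have e1 : ∀ x, ch t (c * x) = Complex.exp ((((t * c) * x : ℝ) : ℂ) * Complex.I) := by
        intro x
        unfold ch
        congr 3
        ring
      simp_rw [e1]
      have e2 : |t * c| = |t| * c := by rw [abs_mul, abs_of_pos hc]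
      have e3 := hdec (t * c) (by
        rw [e2]
        refine hcT.trans ?_
        rw [mul_comm]
        exact mul_le_mul_of_nonneg_right ht hc.le)
      refine e3.trans (le_of_eq ?_)
      rw [e2, Real.mul_rpow (abs_nonneg _) hc.le]
      ring
  have h1 := hT₀ T g0 _ hadm
  have e0 : Measurable (fun x : ℝ => f (E (T * x))) := hf.measurable.comp (hEm.comp (by fun_prop))
  rw [integral_map hm.aemeasurable e0.aestronglyMeasurable] at h1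
  have e1 : ∀ x, T * (c * x) = c * (T * x) := fun x => by ring
  simp_rw [e1] at h1
  exact h1

/-- the limit law for all measures with decay -/
theorem law (haE : Bdw a) (ha0 : a 0 = 0) (hw : Wt w) (hS : SandW E a φ w κ₁ κ₂) (hEm : Measurable E)
    (hEb : ∀ R₁ R₂ : ℝ, 0 < R₁ → ∃ B : ℝ, ∀ R, R₁ ≤ R → R ≤ R₂ → |E R| ≤ B) {c : ℝ} (hc : 0 < c) :
    ∃ ν : ProbabilityMeasure ℝ, Integrable (fun x : ℝ => x ^ 2) (ν : Measure ℝ) ∧ ∫ x, x ∂(ν : Measure ℝ) = 0 ∧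
    HasSum (fun m : ℕ => if 1 ≤ m then (a m) ^ 2 / 2 else 0) (∫ x, x ^ 2 ∂(ν : Measure ℝ)) ∧
    ∀ c₁ c₂ K s : ℝ, 0 < c₁ → 1 / 3 < s → ∀ f : ℝ → ℝ, Continuous f → (∃ C : ℝ, ∀ x, |f x| ≤ C * (1 + x ^ 2)) → ∀ η : ℝ, 0 < η →
      ∃ T₀ : ℝ, ∀ T, T₀ ≤ T → ∀ μ : Measure ℝ, IsProbabilityMeasure μ → (∀ᵐ x ∂μ, c₁ ≤ x ∧ x ≤ c₂) →
        (∀ t : ℝ, T ^ (1 / 20 : ℝ) ≤ |t| → ‖∫ x, Complex.exp (((t * x : ℝ) : ℂ) * Complex.I) ∂μ‖ ≤ K * |t| ^ (-s)) →
        |∫ x, f (E (c * (T * x))) ∂μ - ∫ x, f x ∂(ν : Measure ℝ)| ≤ η := by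
  obtain ⟨α, hα0, hα⟩ := generic
  have hAp : Ap a φ (fun n : ℕ => E (α + n * α)) α α := by
    obtain ⟨C0, hC0, hS'⟩ := hS.sand
    exact Pool.Agent.H383.GW.ap_of haE.Bd ha0 hw hC0 hS' hα0 α (Rn := fun n : ℕ => α + n * α) ⟨0, fun n => by simp⟩
  obtain ⟨ν, h1, hlim⟩ := hAp.b2.limit
  refine ⟨ν, h1, ?_, ?_, fun c₁ c₂ K s hc₁ hs f hf hC η hη =>
    unif haE ha0 hw hS hEm hEb hα0 hα (ν : Measure ℝ) hlim hc c₁ c₂ K s hc₁ hs f hf hC η hη⟩
  · have e1 := hlim (fun x => x) continuous_id ⟨1, fun x => by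
      rw [one_mul]
      have := sq_nonneg (|x| - 1)
      rw [← sq_abs x]
      nlinarith [abs_nonneg x]⟩
    have e2 := hAp.mean haE.Bd ha0 hα0
    have e3 : ∑' m, rt a φ α α m = 0 := by
      refine (tsum_congr (g := fun _ : ℕ => (0 : ℝ)) fun m => ?_).trans tsum_zero
      unfold rt
      rcases Nat.eq_zero_or_pos m with rfl | hm
      · rw [ha0]
        simp
      · rw [if_neg (no_res hα0 hα hm)]
    rw [e3] at e2
    exact tendsto_nhds_unique e1 e2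
  · exact second hα0 hα haE.Bd hAp (hlim (fun x => x ^ 2) (by fun_prop) ⟨1, fun x => by
      rw [abs_of_nonneg (sq_nonneg x)]
      linarith⟩)

end Pool.Agent.R461.GC
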