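import Pool.Agent.R461.GC.G7

set_option autoImplicit false

/-! Almost everywhere bounds, and the divisor problem. -/

namespace Pool.Agent.R461.GC

open MeasureTheory Filter Topology Finset
open Pool.Agent.H383.AP
open Pool.Agent.H387R2.Vor (Ed Del Dsum dv)
open Pool.Agent.H383.Div (E2 ad ad_zero wd wd_Wt vor Dx Ed_quad)
open Pool.Agent.H452R2.Win (Bdw SandW E2_SandW ad_Bdw2)

/-- Chebyshev and Borel-Cantelli -/
theorem ae_small {g : ℝ → ℝ} (hg : Measurable g) (hgb : ∀ R₁ R₂ : ℝ, 0 < R₁ → ∃ B : ℝ, ∀ R, R₁ ≤ R → R ≤ R₂ → |g R| ≤ B)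
    {c₁ c₂ V : ℝ} (hc₁ : 0 < c₁) (μ : Measure ℝ) [IsProbabilityMeasure μ] (hsupp : ∀ᵐ x ∂μ, c₁ ≤ x ∧ x ≤ c₂)
    (T₀ : ℝ) (hV : ∀ T, T₀ ≤ T → ∫ x, (g (T * x)) ^ 2 ∂μ ≤ V) {ε : ℝ} (hε : 0 < ε) (T : ℕ → ℝ) (hT : ∀ k, 0 < T k)
    (hs : Summable (fun k => (T k) ^ (-(2 * ε)))) :
    ∀ᵐ x ∂μ, ∀ᶠ k in atTop, |g (T k * x)| ≤ (T k * x) ^ ε := by
  -- the dilations tend to infinity
  have hlarge : ∀ᶠ k in atTop, T₀ ≤ T k := by
    have h1 := hs.tendsto_atTop_zero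
    have h2 : 0 < (max T₀ 1) ^ (-(2 * ε)) := by positivity
    filter_upwards [h1.eventually (gt_mem_nhds h2)] with k hk
    by_contra hcon
    push Not at hcon
    have h3 : (max T₀ 1) ^ (-(2 * ε)) ≤ (T k) ^ (-(2 * ε)) :=
      Real.rpow_le_rpow_of_nonpos (hT k) (hcon.le.trans (le_max_left _ _)) (by linarith)
    linarith
  obtain ⟨k₀, hk₀⟩ := Filter.eventually_atTop.1 hlarge
  have hV0 : 0 ≤ V := (integral_nonneg fun x => sq_nonneg _).trans (hV (max T₀ (T k₀)) (le_max_left _ _))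
  -- the exceptional sets
  obtain ⟨B, hB⟩ : ∃ B : ℕ → Set ℝ, B = fun k => {x : ℝ | (c₁ * T (k + k₀)) ^ (2 * ε) ≤ (g (T (k + k₀) * x)) ^ 2} := ⟨_, rfl⟩
  have hmeas : ∀ k, μ.real (B k) ≤ V * c₁ ^ (-(2 * ε)) * (T (k + k₀)) ^ (-(2 * ε)) := by
    intro k
    have hTk := hT (k + k₀)
    have hint : Integrable (fun x => (g (T (k + k₀) * x)) ^ 2) μ := by
      obtain ⟨D, hD⟩ := hgb (c₁ * T (k + k₀)) (c₂ * T (k + k₀)) (mul_pos hc₁ hTk)
      have hm : Measurable (fun x => (g (T (k + k₀) * x)) ^ 2) := (hg.comp (by fun_prop)).pow_const 2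
      refine Integrable.of_bound hm.aestronglyMeasurable (D ^ 2) ?_
      filter_upwards [hsupp] with x hx
      rw [Real.norm_eq_abs, abs_of_nonneg (sq_nonneg _), ← sq_abs]
      apply pow_le_pow_left₀ (abs_nonneg _)
      apply hD
      · nlinarith [hx.1]
      · nlinarith [hx.2]
    have h1 := mul_meas_ge_le_integral_of_nonneg (μ := μ) (f := fun x => (g (T (k + k₀) * x)) ^ 2)
      (Eventually.of_forall fun x => sq_nonneg _) hint ((c₁ * T (k + k₀)) ^ (2 * ε))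
    have h2 := hV (T (k + k₀)) (hk₀ _ (by omega))
    have h3 : 0 < (c₁ * T (k + k₀)) ^ (2 * ε) := by positivity
    have h4 : (c₁ * T (k + k₀)) ^ (2 * ε) * μ.real (B k) ≤ V := by
      rw [hB]
      exact h1.trans h2
    have h5 : c₁ ^ (-(2 * ε)) * (T (k + k₀)) ^ (-(2 * ε)) = ((c₁ * T (k + k₀)) ^ (2 * ε))⁻¹ := by
      rw [← Real.mul_rpow hc₁.le hTk.le, Real.rpow_neg (by positivity)]
    rw [mul_assoc, h5, ← div_eq_mul_inv, le_div_iff₀ h3, mul_comm]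
    exact h4
  have hsum : ∑' k, μ (B k) ≠ ⊤ := by
    have h1 : Summable (fun k => V * c₁ ^ (-(2 * ε)) * (T (k + k₀)) ^ (-(2 * ε))) :=
      ((summable_nat_add_iff k₀).2 hs).mul_left _
    have h2 : Summable (fun k => μ.real (B k)) := Summable.of_nonneg_of_le (fun k => measureReal_nonneg) hmeas h1
    have h3 : ∀ k, μ (B k) = ENNReal.ofReal (μ.real (B k)) := fun k => by
      rw [Measure.real, ENNReal.ofReal_toReal (measure_ne_top μ _)]
    simp_rw [h3]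
    rw [← ENNReal.ofReal_tsum_of_nonneg (fun k => measureReal_nonneg) h2]
    exact ENNReal.ofReal_ne_top
  filter_upwards [ae_eventually_notMem hsum, hsupp] with x hx hxs
  obtain ⟨k₁, hk₁⟩ := Filter.eventually_atTop.1 hx
  rw [Filter.eventually_atTop]
  refine ⟨k₁ + k₀, fun k hk => ?_⟩
  have h1 := hk₁ (k - k₀) (by omega)
  rw [hB] at h1
  simp only [Set.mem_ofPred_eq, not_le] at h1
  rw [show k - k₀ + k₀ = k by omega] at h1
  have hx0 : 0 < x := by linarith [hxs.1]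
  have hR : 0 < T k * x := mul_pos (hT k) hx0
  have h2 : (g (T k * x)) ^ 2 ≤ ((T k * x) ^ ε) ^ 2 := by
    have h3 : (c₁ * T k) ^ (2 * ε) ≤ (T k * x) ^ (2 * ε) := by
      apply Real.rpow_le_rpow (mul_pos hc₁ (hT k)).le _ (by linarith)
      nlinarith [hxs.1, hT k]
    have h4 : ((T k * x) ^ ε) ^ 2 = (T k * x) ^ (2 * ε) := by
      rw [← Real.rpow_natCast, ← Real.rpow_mul hR.le, mul_comm ε]
      norm_num
    rw [h4]
    linarith
  exact abs_le_of_sq_le_sq h2 (by positivity)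

lemma Del_meas : Measurable Del := by
  have h1 : Measurable Dsum := by
    have : Dsum = (fun n : ℕ => ∑ k ∈ Finset.Icc 1 n, dv k) ∘ (fun x : ℝ => ⌊x⌋₊) := rfl
    rw [this]
    exact (measurable_from_top).comp Nat.measurable_floor
  unfold Del
  fun_prop

lemma E2_meas : Measurable E2 := by
  have h2 := Del_meas
  unfold E2 Ed
  fun_prop

lemma Del_bdd (x₁ x₂ : ℝ) (h1 : 0 < x₁) : ∃ B : ℝ, 0 ≤ B ∧ ∀ x, x₁ ≤ x → x ≤ x₂ → |Del x| ≤ B := by
  refine ⟨Dsum x₂ + |x₂| * (|Real.log x₁| + |Real.log x₂|) + |2 * Real.eulerMascheroniConstant - 1| * |x₂|, ?_, fun x hx1 hx2 => ?_⟩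
  · have : 0 ≤ Dsum x₂ := by
      unfold Dsum dv
      positivity
    positivity
  · have hx0 : 0 < x := by linarith
    have e1 : 0 ≤ Dsum x := by
      unfold Dsum dv
      positivity
    have e2 : Dsum x ≤ Dsum x₂ := by
      unfold Dsum
      apply sum_le_sum_of_subset_of_nonneg
      · exact Finset.Icc_subset_Icc_right (Nat.floor_le_floor hx2)
      · intro i _ _
        unfold dv
        positivity
    have e3 : |Real.log x| ≤ |Real.log x₁| + |Real.log x₂| := by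
      have a1 : Real.log x₁ ≤ Real.log x := Real.log_le_log h1 hx1
      have a2 : Real.log x ≤ Real.log x₂ := Real.log_le_log hx0 hx2
      rw [abs_le]
      constructor
      · have := neg_abs_le (Real.log x₁)
        have := abs_nonneg (Real.log x₂)
        linarith
      · have := le_abs_self (Real.log x₂)
        have := abs_nonneg (Real.log x₁)
        linarith
    have e4 : |x| ≤ |x₂| := by
      rw [abs_of_pos hx0, abs_of_pos (by linarith)]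
      exact hx2
    unfold Del
    calc |Dsum x - x * Real.log x - (2 * Real.eulerMascheroniConstant - 1) * x|
        ≤ |Dsum x - x * Real.log x| + |(2 * Real.eulerMascheroniConstant - 1) * x| := abs_sub _ _
      _ ≤ (|Dsum x| + |x * Real.log x|) + |(2 * Real.eulerMascheroniConstant - 1) * x| := add_le_add_left (abs_sub _ _) _
      _ ≤ _ := by
          rw [abs_mul, abs_mul, abs_of_nonneg e1]
          have a1 : |x| * |Real.log x| ≤ |x₂| * (|Real.log x₁| + |Real.log x₂|) :=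
            mul_le_mul e4 e3 (abs_nonneg _) (abs_nonneg _)
          have a2 : |2 * Real.eulerMascheroniConstant - 1| * |x| ≤ |2 * Real.eulerMascheroniConstant - 1| * |x₂| :=
            mul_le_mul_of_nonneg_left e4 (abs_nonneg _)
          linarith

lemma E2_bdd (R₁ R₂ : ℝ) (h1 : 0 < R₁) : ∃ B : ℝ, ∀ R, R₁ ≤ R → R ≤ R₂ → |E2 R| ≤ B := by
  obtain ⟨B, hB0, hB⟩ := Del_bdd ((R₁ / 2) ^ 2) ((R₂ / 2) ^ 2) (by positivity)
  refine ⟨B / √(R₁ / 2), fun R hR1 hR2 => ?_⟩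
  unfold E2 Ed
  have hs : 0 < √(R₁ / 2) := Real.sqrt_pos.2 (by linarith)
  have hs2 : √(R₁ / 2) ≤ √(R / 2) := Real.sqrt_le_sqrt (by linarith)
  rw [abs_div, abs_of_pos (lt_of_lt_of_le hs hs2)]
  apply div_le_div₀ hB0 _ hs hs2
  apply hB
  · exact pow_le_pow_left₀ (by linarith) (by linarith) 2
  · exact pow_le_pow_left₀ (by linarith) (by linarith) 2

/-- **the divisor problem** for all measures with decay -/
theorem divisor_law : ∃ (ν : ProbabilityMeasure ℝ) (G : ℂ → ℂ),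
    Differentiable ℂ G ∧ (∀ x : ℝ, 0 ≤ (G x).re ∧ (G x).im = 0) ∧
    (ν : Measure ℝ) = volume.withDensity (fun x : ℝ => ENNReal.ofReal (G x).re) ∧
    (∀ u v : ℝ, u < v → 0 < (ν : Measure ℝ) (Set.Ioo u v)) ∧
    Integrable (fun x : ℝ => x ^ 2) (ν : Measure ℝ) ∧
    ∫ x, x ∂(ν : Measure ℝ) = 0 ∧
    HasSum (fun m : ℕ => (m.divisors.card : ℝ) ^ 2 / (4 * Real.pi ^ 2) * (m : ℝ) ^ (-(3 / 2) : ℝ)) (∫ x, x ^ 2 ∂(ν : Measure ℝ)) ∧
    ∀ c₁ c₂ K s : ℝ, 0 < c₁ → 1 / 3 < s → ∀ f : ℝ → ℝ, Continuous f → (∃ C : ℝ, ∀ x, |f x| ≤ C * (1 + x ^ 2)) → ∀ η : ℝ, 0 < η →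
      ∃ T₀ : ℝ, ∀ T, T₀ ≤ T → ∀ μ : Measure ℝ, IsProbabilityMeasure μ → (∀ᵐ x ∂μ, c₁ ≤ x ∧ x ≤ c₂) →
        (∀ t : ℝ, T ^ (1 / 20 : ℝ) ≤ |t| → ‖∫ x, Complex.exp (((t * x : ℝ) : ℂ) * Complex.I) ∂μ‖ ≤ K * |t| ^ (-s)) →
        |∫ x, f (Ed (T * x)) ∂μ - ∫ x, f x ∂(ν : Measure ℝ)| ≤ η := by
  classical
  obtain ⟨α, hα0, hα⟩ := generic
  have hP : ∀ n : ℕ, 0 < α ^ 2 / 4 * (n : ℝ) ^ 2 + α ^ 2 / 2 * n + α ^ 2 / 4 := fun n => by positivity
  obtain ⟨ν, G, h1, h2, h3, h4, h5, h6, _, _, _, h9⟩ := Pool.Agent.H383.Div.distr3 vor (show 0 < α ^ 2 / 4 by positivity) hP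
  have hsq : ∀ n : ℕ, √(α ^ 2 / 4 * (n : ℝ) ^ 2 + α ^ 2 / 2 * n + α ^ 2 / 4) = (α + n * α) / 2 := by
    intro n
    rw [show α ^ 2 / 4 * (n : ℝ) ^ 2 + α ^ 2 / 2 * n + α ^ 2 / 4 = ((α + n * α) / 2) ^ 2 by ring]
    exact Real.sqrt_sq (by positivity)
  have hEn : ∀ n : ℕ, Dx (α ^ 2 / 4 * (n : ℝ) ^ 2 + α ^ 2 / 2 * n + α ^ 2 / 4) / (α ^ 2 / 4 * (n : ℝ) ^ 2 + α ^ 2 / 2 * n + α ^ 2 / 4) ^ (1 / 4 : ℝ) = E2 (α + n * α) := by
    intro n
    rw [← Ed_quad (hP n).le, hsq]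
    rfl
  have hAp : Pool.Agent.H383.Gen.Ap ad (Real.pi / 4) (fun n : ℕ => E2 (α + n * α)) α α := by
    obtain ⟨C0, hC0, hS'⟩ := (E2_SandW vor).sand
    exact Pool.Agent.H383.GW.ap_of ad_Bdw2.Bd ad_zero wd_Wt hC0 hS' hα0 α (Rn := fun n : ℕ => α + n * α) ⟨0, fun n => by simp⟩
  have hlim : ∀ f : ℝ → ℝ, Continuous f → (∃ C : ℝ, ∀ x : ℝ, |f x| ≤ C * (1 + x ^ 2)) →
      Tendsto (rm (fun n : ℕ => f (E2 (α + n * α)))) atTop (𝓝 (∫ x, f x ∂(ν : Measure ℝ))) := by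
    intro f hf hC
    rw [Metric.tendsto_atTop]
    intro ε hε
    obtain ⟨N₀, hN₀⟩ := h6 f hf hC 1 one_pos (ε / 2) (by linarith)
    refine ⟨N₀, fun N hN => ?_⟩
    have h10 := hN₀ N hN 0 (by
      rw [Nat.cast_zero, Real.zero_rpow (by norm_num)]
      exact Nat.cast_nonneg N)
    rw [Real.dist_eq]
    simp only [hEn, zero_add, ← Finset.range_eq_Ico] at h10
    unfold rm
    linarith
  refine ⟨ν, G, h1, h2, h3, h4, h5, ?_, ?_, ?_⟩
  · rw [h9]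
    refine (tsum_congr (g := fun _ : ℕ => (0 : ℝ)) fun m => ?_).trans tsum_zero
    rw [if_neg]
    rintro ⟨hm, k, hk⟩
    apply no_res hα0 hα hm
    refine ⟨k, ?_⟩
    rw [← hk, show α ^ 2 / 4 * (m : ℝ) = (α / 2) ^ 2 * m by ring, Real.sqrt_mul (sq_nonneg _), Real.sqrt_sq (by positivity)]
    ring
  · have h7 := second hα0 hα ad_Bdw2.Bd hAp (hlim (fun x => x ^ 2) (by fun_prop) ⟨1, fun x => by
      rw [abs_of_nonneg (sq_nonneg x)]
      linarith⟩)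
    convert h7 using 1
    funext m
    rcases Nat.eq_zero_or_pos m with rfl | hm
    · rw [if_neg (by norm_num), Nat.cast_zero, Real.zero_rpow (by norm_num), mul_zero]
    · have hm0 : (0 : ℝ) < m := by exact_mod_cast hm
      rw [if_pos (by omega)]
      unfold ad dv
      have e1 : ((m : ℝ) ^ (-(3 / 4) : ℝ)) ^ 2 = (m : ℝ) ^ (-(3 / 2) : ℝ) := by
        rw [← Real.rpow_natCast, ← Real.rpow_mul hm0.le]
        norm_num
      have e2 : (√2 : ℝ) ^ 2 = 2 := Real.sq_sqrt (by norm_num)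
      have hpi := Real.pi_ne_zero
      rw [mul_pow, mul_pow, e1, div_pow, mul_pow, e2, one_pow]
      field_simp
      ring
  · intro c₁ c₂ K s hc₁ hs f hf hC η hη
    obtain ⟨T₀, hT₀⟩ := unif ad_Bdw2 ad_zero wd_Wt (E2_SandW vor) E2_meas E2_bdd hα0 hα (ν : Measure ℝ) hlim two_pos c₁ c₂ K s hc₁ hs f hf hC η hη
    refine ⟨T₀, fun T hT μ hμ hsupp hdec => ?_⟩
    have h10 := hT₀ T hT μ hμ hsupp hdec
    have e1 : ∀ x, E2 (2 * (T * x)) = Ed (T * x) := by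
      intro x
      unfold E2
      congr 1
      ring
    simp_rw [e1] at h10
    exact h10

end Pool.Agent.R461.GC
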